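import Pool.Agent.helper62.MS.SpecA
import Pool.Agent.helper62.QU.All

/-! Row ms:NM3 (MP_07c750_an): frame bounds. -/

set_option autoImplicit false

open scoped MatrixGroups ContDiff Topology UpperHalfPlane ComplexConjugate
open UpperHalfPlane MeasureTheory Filter Set

namespace Pool.Agent.MS

open Pool.Agent.RS

theorem NM3_hF0 (α : ℝ → ℝ) (h : ∫ x, α x = 1) : ‖hF α 0‖ = 1 := by
  have h1 : hF α 0 = ((∫ x, α x : ℝ) : ℂ) := by
    unfold hF
    rw [← integral_complex_ofReal]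
    refine integral_congr_ae (Filter.Eventually.of_forall fun x => ?_)
    simp
  rw [h1, h]
  simp

theorem NM3_proof (hALH : ALH_stmt) (hBK5 : BK5_stmt) (hCV1 : CV1_stmt) (hFL0 : FL0_stmt)
    (hGR2 : GR2_stmt) (hEF1 : EF1_stmt) (hNR5 : NR5_stmt) : NM3_stmt := by
  intro Γ F α β hΓ hFd hα hβ η hη
  obtain ⟨hα, hα0, hαi⟩ := hα
  obtain ⟨hβ, hβi⟩ := hβ
  obtain ⟨hT, hcc, -, -⟩ := hCV1.2.2 (1 / 4) α β hα hβ
  obtain ⟨hA1, -⟩ := hALH (1 / 4) α (by norm_num) (by norm_num) hα hα0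
  rw [hαi] at hA1
  obtain ⟨K, hK, hEF⟩ := hEF1 (pc β α) hT
  obtain ⟨R0, hR1, hR0⟩ : ∃ R0 : ℝ, 1 ≤ R0 ∧ K / R0 ^ 2 ≤ 1 := by
    refine ⟨max 1 K, le_max_left _ _, ?_⟩
    have h1 : (1 : ℝ) ≤ max 1 K := le_max_left _ _
    have h2 : K ≤ max 1 K := le_max_right _ _
    rw [div_le_iff₀ (by positivity)]
    nlinarith
  obtain ⟨ra, hra1, hra⟩ := hBK5 α β hα hβ η R0 hη
  rw [hβi] at hra
  refine ⟨max ra (100 * R0), le_trans hra1 (le_max_left _ _), ?_⟩
  intro r hr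
  have h1 : ra ≤ r := le_trans (le_max_left _ _) hr
  have h4 : 100 * R0 ≤ r := le_trans (le_max_right _ _) hr
  have hr0 : 0 < r := lt_of_lt_of_le (by norm_num) (le_trans hra1 h1)
  have hnn : ∀ u : ℍ → ℂ, 0 ≤ nn F u := fun u => integral_nonneg fun z => sq_nonneg _
  constructor
  · intro u hu
    have hTst : Tst (pk r (pc β α)) := hFL0.2.1 (1 / 4) r _ hT
    have hcont : Continuous (pk r (pc β α)) :=
      ((QU.A_CA1 ℂ).1 _).1 ((QU.A_CA1 ℂ).2.1 _ 0 ∞ (by exact_mod_cast (bot_le : (0 : ℕ∞) ≤ ⊤)) hTst.1)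
    obtain ⟨q, hq0, hq1, hq2⟩ := hNR5 Γ F (pk r (pc β α)) hΓ hFd hcont hTst.2
    have h5 : qn F (pc β α) r u ≤ q * nn F u := hq1 u hu
    have h6 : r * q ≤ 1 + η := by
      rcases hq2 with h | ⟨lam, v, hv, hvpos, hvq⟩
      · rw [h, mul_zero]
        positivity
      · have hvq' : qn F (pc β α) r v = q * nn F v := hvq
        by_cases hs : ∃ s : ℝ, 0 ≤ s ∧ lam = 1 / 4 + s ^ 2 ∧ |s - r| ≤ R0
        · obtain ⟨s, -, hlam, hsr⟩ := hs
          rw [hlam] at hv
          have h5 := (hGR2 Γ F hΓ hFd s v hv).2 (pc β α) r hT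
          rw [hvq', hcc, mul_comm] at h5
          have h6 : q = bk (pr β α) r s := mul_left_cancel₀ (ne_of_gt hvpos) h5
          rw [h6]
          have h7 := (abs_le.1 (hra r s h1 hsr)).2
          have h8 : ‖hF α (s - r)‖ ^ 2 ≤ 1 ^ 2 :=
            pow_le_pow_left₀ (norm_nonneg _) (hA1 (s - r)) 2
          linarith
        · have h5 := hEF Γ F r R0 lam v hΓ hFd hR1 h4 hv (by
            intro s hs0 hs1
            by_contra h6
            exact hs ⟨s, hs0, hs1, not_lt.1 h6⟩)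
          rw [hvq'] at h5
          have h6 : q ≤ K / (R0 ^ 2 * r) := le_of_mul_le_mul_right h5 hvpos
          have h7 : r * (K / (R0 ^ 2 * r)) = K / R0 ^ 2 := by
            have : (0 : ℝ) < R0 ^ 2 := by positivity
            field_simp
          have h8 := mul_le_mul_of_nonneg_left h6 hr0.le
          rw [h7] at h8
          linarith
    calc r * qn F (pc β α) r u ≤ r * (q * nn F u) := mul_le_mul_of_nonneg_left h5 hr0.le
      _ = r * q * nn F u := by ring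
      _ ≤ (1 + η) * nn F u := mul_le_mul_of_nonneg_right h6 (hnn u)
  · intro φ hφ
    have hG := (hGR2 Γ F hΓ hFd r φ hφ).2 (pc β α) r hT
    have h2 := hra r r h1 (by simp; linarith)
    rw [sub_self, NM3_hF0 α hαi] at h2
    rw [hG, hcc]
    have h3 : r * (nn F φ * bk (pr β α) r r) - nn F φ = nn F φ * (r * bk (pr β α) r r - 1 ^ 2 * 1) := by ring
    rw [h3, abs_mul, abs_of_nonneg (hnn φ), mul_comm η]
    exact mul_le_mul_of_nonneg_left h2 (hnn φ)

end Pool.Agent.MS
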