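import Pool.Agent.helper43.MS.Defs

open Bundle Manifold MeasureTheory Set Filter Topology
open scoped ContDiff ENNReal

namespace Pool.Agent.helper43.MS

variable {n : ℕ}

/-- The bilinear form with matrix `G`. -/
noncomputable def bil (G : Matrix (Fin n) (Fin n) ℝ) (u v : E n) : ℝ := ∑ a, ∑ b, G a b * u a * v b

theorem bil_add_left (G : Matrix (Fin n) (Fin n) ℝ) (u u' v : E n) :
    bil G (u + u') v = bil G u v + bil G u' v := by
  simp only [bil, ← Finset.sum_add_distrib]
  refine Finset.sum_congr rfl fun a _ => Finset.sum_congr rfl fun b _ => ?_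
  simp; ring

theorem bil_add_right (G : Matrix (Fin n) (Fin n) ℝ) (u v v' : E n) :
    bil G u (v + v') = bil G u v + bil G u v' := by
  simp only [bil, ← Finset.sum_add_distrib]
  refine Finset.sum_congr rfl fun a _ => Finset.sum_congr rfl fun b _ => ?_
  simp; ring

theorem bil_smul_left (G : Matrix (Fin n) (Fin n) ℝ) (c : ℝ) (u v : E n) :
    bil G (c • u) v = c * bil G u v := by
  simp only [bil, Finset.mul_sum]
  refine Finset.sum_congr rfl fun a _ => Finset.sum_congr rfl fun b _ => ?_
  simp; ring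

theorem bil_smul_right (G : Matrix (Fin n) (Fin n) ℝ) (c : ℝ) (u v : E n) :
    bil G u (c • v) = c * bil G u v := by
  simp only [bil, Finset.mul_sum]
  refine Finset.sum_congr rfl fun a _ => Finset.sum_congr rfl fun b _ => ?_
  simp; ring

theorem bil_zero_left (G : Matrix (Fin n) (Fin n) ℝ) (v : E n) : bil G 0 v = 0 := by
  simp [bil]

theorem bil_zero_right (G : Matrix (Fin n) (Fin n) ℝ) (v : E n) : bil G v 0 = 0 := by
  simp [bil]

theorem bil_neg_left (G : Matrix (Fin n) (Fin n) ℝ) (u v : E n) : bil G (-u) v = - bil G u v := by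
  have := bil_smul_left G (-1) u v
  simpa using this

theorem bil_neg_right (G : Matrix (Fin n) (Fin n) ℝ) (u v : E n) : bil G u (-v) = - bil G u v := by
  have := bil_smul_right G (-1) u v
  simpa using this

theorem bil_sub_left (G : Matrix (Fin n) (Fin n) ℝ) (u u' v : E n) :
    bil G (u - u') v = bil G u v - bil G u' v := by
  rw [sub_eq_add_neg, bil_add_left, bil_neg_left]; ring

theorem bil_sub_right (G : Matrix (Fin n) (Fin n) ℝ) (u v v' : E n) :
    bil G u (v - v') = bil G u v - bil G u v' := by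
  rw [sub_eq_add_neg, bil_add_right, bil_neg_right]; ring

theorem bil_sum_left {ι : Type*} (s : Finset ι) (G : Matrix (Fin n) (Fin n) ℝ) (u : ι → E n)
    (v : E n) : bil G (∑ i ∈ s, u i) v = ∑ i ∈ s, bil G (u i) v := by
  classical
  induction s using Finset.induction_on with
  | empty => simp [bil_zero_left]
  | insert a s ha ih => rw [Finset.sum_insert ha, Finset.sum_insert ha, bil_add_left, ih]

theorem bil_sum_right {ι : Type*} (s : Finset ι) (G : Matrix (Fin n) (Fin n) ℝ) (u : ι → E n)
    (v : E n) : bil G v (∑ i ∈ s, u i) = ∑ i ∈ s, bil G v (u i) := by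
  classical
  induction s using Finset.induction_on with
  | empty => simp [bil_zero_right]
  | insert a s ha ih => rw [Finset.sum_insert ha, Finset.sum_insert ha, bil_add_right, ih]

theorem bil_matrix_add (G G' : Matrix (Fin n) (Fin n) ℝ) (u v : E n) :
    bil (G + G') u v = bil G u v + bil G' u v := by
  simp only [bil, ← Finset.sum_add_distrib]
  refine Finset.sum_congr rfl fun a _ => Finset.sum_congr rfl fun b _ => ?_
  simp; ring

theorem bil_matrix_sub (G G' : Matrix (Fin n) (Fin n) ℝ) (u v : E n) :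
    bil (G - G') u v = bil G u v - bil G' u v := by
  simp only [bil, ← Finset.sum_sub_distrib]
  refine Finset.sum_congr rfl fun a _ => Finset.sum_congr rfl fun b _ => ?_
  simp; ring

theorem bil_comm {G : Matrix (Fin n) (Fin n) ℝ} (hG : ∀ a b, G a b = G b a) (u v : E n) :
    bil G u v = bil G v u := by
  simp only [bil]
  rw [Finset.sum_comm]
  refine Finset.sum_congr rfl fun a _ => Finset.sum_congr rfl fun b _ => ?_
  rw [hG b a]; ring

/-- The `ℓ¹` norm of the entries of a matrix. -/
noncomputable def n1 (G : Matrix (Fin n) (Fin n) ℝ) : ℝ := ∑ a, ∑ b, |G a b|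

theorem n1_nonneg (G : Matrix (Fin n) (Fin n) ℝ) : 0 ≤ n1 G :=
  Finset.sum_nonneg fun a _ => Finset.sum_nonneg fun b _ => abs_nonneg _

theorem abs_coord_le (u : E n) (a : Fin n) : |u a| ≤ ‖u‖ := by
  have := EuclideanSpace.norm_eq u
  rw [this]
  apply Real.abs_le_sqrt
  have h : ‖u a‖ ^ 2 ≤ ∑ i, ‖u i‖ ^ 2 :=
    Finset.single_le_sum (f := fun i => ‖u i‖ ^ 2) (fun i _ => sq_nonneg _) (Finset.mem_univ a)
  simpa using h

theorem abs_bil_le (G : Matrix (Fin n) (Fin n) ℝ) (u v : E n) :
    |bil G u v| ≤ n1 G * ‖u‖ * ‖v‖ := by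
  unfold bil n1
  rw [Finset.sum_mul, Finset.sum_mul]
  refine (Finset.abs_sum_le_sum_abs _ _).trans (Finset.sum_le_sum fun a _ => ?_)
  rw [Finset.sum_mul, Finset.sum_mul]
  refine (Finset.abs_sum_le_sum_abs _ _).trans (Finset.sum_le_sum fun b _ => ?_)
  rw [abs_mul, abs_mul]
  have h1 := abs_coord_le u a
  have h2 := abs_coord_le v b
  gcongr

theorem bil_eq_dotProduct (G : Matrix (Fin n) (Fin n) ℝ) (u v : E n) :
    bil G u v = dotProduct (fun i => u i) (G.mulVec (fun i => v i)) := by
  simp only [bil, dotProduct, Matrix.mulVec, Finset.mul_sum]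
  refine Finset.sum_congr rfl fun a _ => Finset.sum_congr rfl fun b _ => ?_
  ring

theorem PosDef.symm' {G : Matrix (Fin n) (Fin n) ℝ} (hG : G.PosDef) (a b : Fin n) :
    G a b = G b a := by
  have := hG.isHermitian.apply a b
  simpa using this.symm

theorem bil_pos {G : Matrix (Fin n) (Fin n) ℝ} (hG : G.PosDef) {v : E n} (hv : v ≠ 0) :
    0 < bil G v v := by
  rw [bil_eq_dotProduct]
  have := hG.dotProduct_mulVec_pos (x := fun i => v i) (by
    intro h; apply hv; ext i; exact congrFun h i)
  simpa using this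

theorem bil_nonneg {G : Matrix (Fin n) (Fin n) ℝ} (hG : G.PosDef) (v : E n) :
    0 ≤ bil G v v := by
  by_cases hv : v = 0
  · simp [hv, bil_zero_left]
  · exact (bil_pos hG hv).le

theorem isOrthoFamily_iff {m : ℕ} {G : Matrix (Fin n) (Fin n) ℝ} {v : Fin m → E n} :
    IsOrthoFamily G v ↔ ∀ k l, bil G (v k) (v l) = if k = l then 1 else 0 := Iff.rfl

/-- Bessel's inequality. -/
theorem bessel {m : ℕ} {G : Matrix (Fin n) (Fin n) ℝ} (hG : G.PosDef) {v : Fin m → E n}
    (hv : IsOrthoFamily G v) (z : E n) : ∑ k, bil G z (v k) ^ 2 ≤ bil G z z := by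
  have h0 := bil_nonneg hG (z - ∑ k, bil G z (v k) • v k)
  have hs := PosDef.symm' hG
  have e1 : bil G (∑ k, bil G z (v k) • v k) z = ∑ k, bil G z (v k) ^ 2 := by
    rw [bil_sum_left]
    refine Finset.sum_congr rfl fun k _ => ?_
    rw [bil_smul_left, bil_comm hs]; ring
  have e2 : bil G z (∑ k, bil G z (v k) • v k) = ∑ k, bil G z (v k) ^ 2 := by
    rw [bil_comm hs]; exact e1
  have e3 : bil G (∑ k, bil G z (v k) • v k) (∑ k, bil G z (v k) • v k) =
      ∑ k, bil G z (v k) ^ 2 := by
    rw [bil_sum_left]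
    refine Finset.sum_congr rfl fun k _ => ?_
    rw [bil_smul_left, bil_sum_right]
    have : ∀ l ∈ Finset.univ, bil G (v k) (bil G z (v l) • v l) =
        if k = l then bil G z (v l) else 0 := by
      intro l _
      rw [bil_smul_right, (isOrthoFamily_iff.1 hv) k l]
      split_ifs <;> simp
    rw [Finset.sum_congr rfl this, Finset.sum_ite_eq]
    simp; ring
  rw [bil_sub_left, bil_sub_right, bil_sub_right, e1, e2, e3] at h0
  linarith

end Pool.Agent.helper43.MS
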