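import Pool.Agent.helper17.MS.S2
import Pool.Agent.helper30.MS.Ba
import Pool.Agent.helper97.MS.W
import Pool.Agent.helper17.MS.R2

open Bundle Manifold MeasureTheory Set Filter Topology
open scoped ContDiff ENNReal

namespace Pool.Agent.helper43.MS

section Basic
variable {M : Type*} [TopologicalSpace M]

theorem hcs_sq {u : M → ℝ} (hu : HasCompactSupport u) :
    HasCompactSupport (fun p => u p ^ 2) := by
  have : HasCompactSupport ((fun t : ℝ => t ^ 2) ∘ u) := hu.comp_left (by simp)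
  exact this

theorem integrable_sq [MeasurableSpace M] [OpensMeasurableSpace M] {μ : Measure M}
    [IsLocallyFiniteMeasure μ] [T2Space M] {u : M → ℝ} (hc : Continuous u)
    (hu : HasCompactSupport u) : Integrable (fun p => u p ^ 2) μ :=
  Continuous.integrable_of_hasCompactSupport (hc.pow 2) (hcs_sq hu)

/-- Tail estimate from Barta's inequality. -/
theorem tail_of_barta [MeasurableSpace M] [BorelSpace M] {μ : Measure M}
    [IsLocallyFiniteMeasure μ] [T2Space M] {u w b : M → ℝ} {K : Set M} {ε E : ℝ}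
    (hε : 0 ≤ ε) (hc : Continuous u) (hu : HasCompactSupport u) (hwc : Continuous w)
    (hw : ∀ p, 0 < w p ∧ w p ≤ ε) (hKm : MeasurableSet K) (hbm : Measurable b)
    (hb : ∀ p, 0 ≤ b p ∧ b p ≤ 1) (hbK : ∀ p, p ∉ K → b p = 1) (hE1 : E ≤ 1)
    (hB : ∫ p, b p / w p * u p ^ 2 ∂μ ≤ E) : ∫ p in Kᶜ, u p ^ 2 ∂μ ≤ ε := by
  have hb0 : ∀ p, |b p| ≤ 1 := fun p => by rw [abs_of_nonneg (hb p).1]; exact (hb p).2
  have hint1 : Integrable (fun p => u p ^ 2) μ := integrable_sq hc hu
  have hint2 : Integrable (fun p => b p / w p * u p ^ 2) μ := by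
    have h2 : Integrable (fun p => (1 / w p) * u p ^ 2) μ := by
      have hcc : Continuous (fun p => (1 / w p) * u p ^ 2) :=
        (continuous_const.div hwc (fun p => (hw p).1.ne')).mul (hc.pow 2)
      apply hcc.integrable_of_hasCompactSupport
      exact HasCompactSupport.mul_left (hcs_sq hu)
    have h3 := h2.bdd_mul (c := 1) hbm.aestronglyMeasurable
      (ae_of_all _ (fun p => by simpa using hb0 p))
    refine h3.congr (ae_of_all _ (fun p => ?_))
    simp only [div_eq_mul_inv]; ring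
  calc ∫ p in Kᶜ, u p ^ 2 ∂μ ≤ ∫ p in Kᶜ, ε * (b p / w p * u p ^ 2) ∂μ := by
        apply setIntegral_mono_on hint1.integrableOn (hint2.const_mul _).integrableOn
          hKm.compl
        intro p hp
        rw [hbK p hp]
        have hwp := (hw p)
        have : 1 ≤ ε * (1 / w p) := by
          rw [mul_one_div, le_div_iff₀ hwp.1]; linarith [hwp.2]
        calc u p ^ 2 = 1 * u p ^ 2 := by ring
          _ ≤ ε * (1 / w p) * u p ^ 2 := by gcongr
          _ = _ := by ring
    _ ≤ ∫ p, ε * (b p / w p * u p ^ 2) ∂μ := by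
        apply setIntegral_le_integral (hint2.const_mul _)
        refine ae_of_all _ (fun p => ?_)
        have hwp := (hw p).1
        have hbp := (hb p).1
        simp only [Pi.zero_apply]
        positivity
    _ = ε * ∫ p, (b p / w p * u p ^ 2) ∂μ := by rw [integral_const_mul]
    _ ≤ ε * 1 := by gcongr; linarith
    _ = ε := by ring

/-- Splitting the `L²` distance. -/
theorem dist_split [MeasurableSpace M] [BorelSpace M] {μ : Measure M}
    [IsLocallyFiniteMeasure μ] [T2Space M] {u t : M → ℝ} {K : Set M} {a b c : ℝ}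
    (hcu : Continuous u) (hu : HasCompactSupport u) (hct : Continuous t) (ht : HasCompactSupport t)
    (hKm : MeasurableSet K) (h1 : ∫ p in K, (u p - t p) ^ 2 ∂μ ≤ a)
    (h2 : ∫ p in Kᶜ, u p ^ 2 ∂μ ≤ b) (h3 : ∫ p in Kᶜ, t p ^ 2 ∂μ ≤ c) :
    ∫ p, (u p - t p) ^ 2 ∂μ ≤ a + 2 * b + 2 * c := by
  have hint_u : Integrable (fun p => u p ^ 2) μ := integrable_sq hcu hu
  have hint_t : Integrable (fun p => t p ^ 2) μ := integrable_sq hct ht
  have hint_d : Integrable (fun p => (u p - t p) ^ 2) μ :=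
    integrable_sq (u := fun p => u p - t p) (hcu.sub hct) (hu.sub ht)
  rw [← integral_add_compl hKm hint_d]
  have hcompl : ∫ p in Kᶜ, (u p - t p) ^ 2 ∂μ ≤
      2 * (∫ p in Kᶜ, u p ^ 2 ∂μ) + 2 * ∫ p in Kᶜ, t p ^ 2 ∂μ := by
    rw [← integral_const_mul, ← integral_const_mul, ← integral_add]
    · apply setIntegral_mono_on hint_d.integrableOn _ hKm.compl
      · intro p _
        nlinarith [sq_nonneg (u p + t p)]
      · exact ((hint_u.const_mul 2).add (hint_t.const_mul 2)).integrableOn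
    · exact (hint_u.const_mul 2).integrableOn
    · exact (hint_t.const_mul 2).integrableOn
  linarith

end Basic

section Final

variable {m n : ℕ} {M : Type*} [TopologicalSpace M] [T2Space M] [SecondCountableTopology M]
  [ChartedSpace (E m) M] [IsManifold 𝓘(ℝ, E m) ∞ M] [MeasurableSpace M] [BorelSpace M]
  {N : Type*} [EMetricSpace N] [ChartedSpace (E n) N]
  [IsManifold 𝓘(ℝ, E n) ∞ N] [MeasurableSpace N] [BorelSpace N]
  [RiemannianBundle (fun q : N => TangentSpace 𝓘(ℝ, E n) q)]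
  [IsContMDiffRiemannianBundle 𝓘(ℝ, E n) ∞ (E n) (fun q : N => TangentSpace 𝓘(ℝ, E n) q)]
  [IsRiemannianManifold 𝓘(ℝ, E n) N]

theorem main (hm : 3 ≤ m) {φ : M → N} (h : IsImm m n φ) (hmin : IsMinimal m n φ) {μ : Measure M}
    (hμ : IsRiemVolume m n φ μ) {D : Set N} (hD : IsOpen D)
    (hDc : IsCompact (closure D)) (hconv : IsUniformlyConvex n m D)
    (hφD : ∀ p, φ p ∈ D) (hlim : μH[(m : ℝ)] (limitSet φ ∩ D) = 0) :
    HasDiscreteSpectrum m n φ μ := by
  apply discrete_of_compact h hμ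
  intro ε hε
  obtain ⟨w, b, K, hw2, hw, hK, hbm, hb, hbK, hle⟩ :=
    exists_barrier hm h hmin hD hDc hconv hφD hlim (ε := ε / 8) (by positivity)
  obtain ⟨T, hT, hT1, hT2⟩ := rellich_local h hμ hK (ε := ε / 2) (by positivity)
  have := hμ.isLocallyFinite h
  have hKm : MeasurableSet K := hK.measurableSet
  have hb0 : ∀ p, |b p| ≤ 1 := fun p => by rw [abs_of_nonneg (hb p).1]; exact (hb p).2
  have tail : ∀ u : M → ℝ, IsTest m u →
      (∫ p, u p ^ 2 ∂μ) + dirichlet m n φ μ u u ≤ 1 →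
      ∫ p in Kᶜ, u p ^ 2 ∂μ ≤ ε / 8 := by
    intro u hu hu1
    have hB := barta h hμ hw2 (fun p => (hw p).1) hbm hb0 hle hu
    have hsq : 0 ≤ ∫ p, u p ^ 2 ∂μ := integral_nonneg (fun p => sq_nonneg _)
    exact tail_of_barta (by positivity) hu.1.continuous hu.2 hw2.continuous hw hKm hbm hb hbK
      (by linarith) hB
  refine ⟨T, hT, fun t ht => (hT1 t ht).1, fun u hu hu1 => ?_⟩
  obtain ⟨t, htT, ht⟩ := hT2 u hu hu1
  refine ⟨t, htT, ?_⟩
  have ht1 := hT1 t htT
  have := dist_split hu.1.continuous hu.2 ht1.1.1.continuous ht1.1.2 hKm ht (tail u hu hu1)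
    (tail t ht1.1 ht1.2)
  linarith

end Final

end Pool.Agent.helper43.MS
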