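import Pool.Agent.helper43.MS.Bil

open Bundle Manifold MeasureTheory Set Filter Topology
open scoped ContDiff ENNReal

namespace Pool.Agent.helper43.MS

variable {n m : ℕ}

theorem pd_congr {i : Fin n} {f g : E n → ℝ} {x : E n} (h : f =ᶠ[𝓝 x] g) : pd i f x = pd i g x := by
  unfold pd; rw [h.fderiv_eq]

theorem pd_eventually_congr {i : Fin n} {f g : E n → ℝ} {x : E n} (h : f =ᶠ[𝓝 x] g) :
    pd i f =ᶠ[𝓝 x] pd i g := by
  filter_upwards [h.fderiv (𝕜 := ℝ)] with y hy
  unfold pd; rw [hy]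

@[simp] theorem pd_const (i : Fin n) (c : ℝ) (x : E n) : pd i (fun _ => c) x = 0 := by
  simp [pd]

theorem pd_add {i : Fin n} {f g : E n → ℝ} {x : E n} (hf : DifferentiableAt ℝ f x)
    (hg : DifferentiableAt ℝ g x) : pd i (fun z => f z + g z) x = pd i f x + pd i g x := by
  unfold pd; rw [fderiv_fun_add hf hg]; rfl

theorem pd_sub {i : Fin n} {f g : E n → ℝ} {x : E n} (hf : DifferentiableAt ℝ f x)
    (hg : DifferentiableAt ℝ g x) : pd i (fun z => f z - g z) x = pd i f x - pd i g x := by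
  unfold pd; rw [fderiv_fun_sub hf hg]; rfl

theorem pd_neg {i : Fin n} {f : E n → ℝ} {x : E n} : pd i (fun z => - f z) x = - pd i f x := by
  unfold pd; rw [fderiv_fun_neg]; rfl

theorem pd_mul {i : Fin n} {f g : E n → ℝ} {x : E n} (hf : DifferentiableAt ℝ f x)
    (hg : DifferentiableAt ℝ g x) :
    pd i (fun z => f z * g z) x = f x * pd i g x + g x * pd i f x := by
  unfold pd; rw [fderiv_fun_mul hf hg]; simp

theorem pd_const_mul {i : Fin n} {f : E n → ℝ} {x : E n} (c : ℝ) (hf : DifferentiableAt ℝ f x) :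
    pd i (fun z => c * f z) x = c * pd i f x := by
  rw [pd_mul (differentiableAt_const c) hf]; simp

theorem pd_sum {ι : Type*} {s : Finset ι} {i : Fin n} {f : ι → E n → ℝ} {x : E n}
    (hf : ∀ j ∈ s, DifferentiableAt ℝ (f j) x) :
    pd i (fun z => ∑ j ∈ s, f j z) x = ∑ j ∈ s, pd i (f j) x := by
  unfold pd; rw [fderiv_fun_sum hf]; simp

theorem differentiableAt_coord (j : Fin n) (x : E n) :
    DifferentiableAt ℝ (fun z : E n => z j) x :=
  (EuclideanSpace.proj (𝕜 := ℝ) j).differentiableAt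

theorem contDiff_coord {k : WithTop ℕ∞} (j : Fin n) : ContDiff ℝ k (fun z : E n => z j) :=
  (EuclideanSpace.proj (𝕜 := ℝ) j).contDiff

theorem pd_coord (i j : Fin n) (x : E n) : pd i (fun z => z j) x = if i = j then 1 else 0 := by
  unfold pd
  have : (fun z : E n => z j) = (EuclideanSpace.proj (𝕜 := ℝ) j : E n →L[ℝ] ℝ) := rfl
  rw [this, ContinuousLinearMap.fderiv]
  simp [eq_comm]

theorem eq_sum_bv (v : E n) : v = ∑ i, v i • bv i := by
  ext j
  simp [Finset.sum_apply, Pi.single_apply]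

theorem fderiv_apply_eq_sum (f : E n → ℝ) (x v : E n) :
    fderiv ℝ f x v = ∑ i, v i * pd i f x := by
  conv_lhs => rw [eq_sum_bv v]
  rw [map_sum]
  refine Finset.sum_congr rfl fun i _ => ?_
  rw [map_smul]; rfl

theorem pd_comp_real {i : Fin n} {f : E n → ℝ} {x : E n} {ψ : ℝ → ℝ} {ψ' : ℝ}
    (hψ : HasDerivAt ψ ψ' (f x)) (hf : DifferentiableAt ℝ f x) :
    pd i (fun z => ψ (f z)) x = ψ' * pd i f x := by
  unfold pd
  have := hψ.comp_hasFDerivAt x hf.hasFDerivAt
  have h2 : HasFDerivAt (fun z => ψ (f z)) (ψ' • fderiv ℝ f x) x := this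
  rw [h2.fderiv]; simp

/-- Chain rule. -/
theorem pd_comp {i : Fin m} {g : E m → E n} {f : E n → ℝ} {x : E m}
    (hf : DifferentiableAt ℝ f (g x)) (hg : DifferentiableAt ℝ g x) :
    pd i (fun z => f (g z)) x = ∑ a, pd a f (g x) * pd i (fun z => g z a) x := by
  have h1 : fderiv ℝ (fun z => f (g z)) x = (fderiv ℝ f (g x)).comp (fderiv ℝ g x) :=
    fderiv_comp x hf hg
  unfold pd
  rw [h1, ContinuousLinearMap.comp_apply, fderiv_apply_eq_sum]
  refine Finset.sum_congr rfl fun a _ => ?_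
  have h2 : fderiv ℝ (fun z => g z a) x = (EuclideanSpace.proj (𝕜 := ℝ) a).comp (fderiv ℝ g x) := by
    have := ((EuclideanSpace.proj (𝕜 := ℝ) a : E n →L[ℝ] ℝ).hasFDerivAt.comp x
      hg.hasFDerivAt).fderiv
    exact this
  rw [h2, ContinuousLinearMap.comp_apply, mul_comm]; rfl

theorem contDiffAt_pd {i : Fin n} {f : E n → ℝ} {x : E n} {k l : WithTop ℕ∞}
    (hf : ContDiffAt ℝ l f x) (hkl : k + 1 ≤ l) : ContDiffAt ℝ k (pd i f) x := by
  unfold pd
  exact (hf.fderiv_right hkl).clm_apply contDiffAt_const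

theorem contDiff_pd {i : Fin n} {f : E n → ℝ} {k l : WithTop ℕ∞}
    (hf : ContDiff ℝ l f) (hkl : k + 1 ≤ l) : ContDiff ℝ k (pd i f) :=
  contDiff_iff_contDiffAt.2 fun x => contDiffAt_pd hf.contDiffAt hkl

theorem contDiffOn_pd {i : Fin n} {f : E n → ℝ} {s : Set (E n)} (hs : IsOpen s)
    {k l : WithTop ℕ∞} (hf : ContDiffOn ℝ l f s) (hkl : k + 1 ≤ l) : ContDiffOn ℝ k (pd i f) s :=
  fun x hx => (contDiffAt_pd (hf.contDiffAt (hs.mem_nhds hx)) hkl).contDiffWithinAt

/-- Symmetry of second derivatives. -/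
theorem pd_pd_comm {a b : Fin n} {f : E n → ℝ} {x : E n} (hf : ContDiffAt ℝ 2 f x) :
    pd a (pd b f) x = pd b (pd a f) x := by
  have hd : DifferentiableAt ℝ (fderiv ℝ f) x :=
    (hf.fderiv_right (m := 1) (by norm_num)).differentiableAt (by norm_num)
  have h (c d : Fin n) : pd c (pd d f) x = fderiv ℝ (fderiv ℝ f) x (bv c) (bv d) := by
    unfold pd
    rw [fderiv_clm_apply hd (differentiableAt_const _)]
    simp
  have hs : IsSymmSndFDerivAt ℝ f x := hf.isSymmSndFDerivAt (by simp)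
  rw [h, h]
  exact hs.eq _ _

end Pool.Agent.helper43.MS
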