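import Pool.Agent.helper73.MS.S1
import Pool.Agent.helper30.MS.V

open Bundle Manifold MeasureTheory Set Filter Topology
open scoped ContDiff ENNReal

namespace Pool.Agent.helper43.MS

variable {m n : ℕ} {M : Type*} [TopologicalSpace M] [T2Space M] [SecondCountableTopology M]
  [ChartedSpace (E m) M] [IsManifold 𝓘(ℝ, E m) ∞ M] [MeasurableSpace M] [BorelSpace M]
  {N : Type*} [TopologicalSpace N] [ChartedSpace (E n) N] [IsManifold 𝓘(ℝ, E n) ∞ N]
  [RiemannianBundle (fun q : N => TangentSpace 𝓘(ℝ, E n) q)]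
  [IsContMDiffRiemannianBundle 𝓘(ℝ, E n) ∞ (E n) (fun q : N => TangentSpace 𝓘(ℝ, E n) q)]

/-- S1: test functions are dense in `L²(M)` -/
theorem test_dense {φ : M → N} (h : IsImm m n φ) {μ : Measure M}
    (hμ : IsRiemVolume m n φ μ) (f : Lp ℝ 2 μ) {ε : ℝ} (hε : 0 < ε) :
    ∃ u : M → ℝ, IsTest m u ∧ eLpNorm (fun p => u p - f p) 2 μ ≤ ENNReal.ofReal ε := by
  have := hμ.isLocallyFinite h
  exact test_dense_of_locallyFinite f hε

end Pool.Agent.helper43.MS
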