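import Pool.Agent.helper43.MS.Bump

open Bundle Manifold MeasureTheory Set Filter Topology
open scoped ContDiff ENNReal

namespace Pool.Agent.helper43.MS

variable {n m : ℕ}

theorem two_le_infty : (2 : WithTop ℕ∞) ≤ ((⊤ : ℕ∞) : WithTop ℕ∞) :=
  WithTop.coe_le_coe.2 (le_top : (2 : ℕ∞) ≤ ⊤)

theorem exists_cutoff {K Ω : Set (E n)} (hK : IsCompact K) (hΩ : IsOpen Ω) (h : K ⊆ Ω) :
    ∃ (χ : E n → ℝ) (V : Set (E n)), ContDiff ℝ ∞ χ ∧ HasCompactSupport χ ∧ tsupport χ ⊆ Ω ∧
      (∀ y, 0 ≤ χ y ∧ χ y ≤ 1) ∧ IsOpen V ∧ K ⊆ V ∧ V ⊆ Ω ∧ ∀ y ∈ V, χ y = 1 := by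
  obtain ⟨L, hL, hKL, hLΩ⟩ := exists_compact_between hK hΩ h
  obtain ⟨f, h1, h0, hf⟩ := exists_contMDiffMap_one_nhds_of_subset_interior (n := ⊤)
    𝓘(ℝ, E n) (hs := hK.isClosed) (hd := hKL)
  obtain ⟨V, hV, hVf⟩ := h1.exists_mem
  have hVo : IsOpen (interior V ∩ Ω) := isOpen_interior.inter hΩ
  have hsupp : Function.support (f : E n → ℝ) ⊆ L := by
    intro x hx
    by_contra hxL
    exact hx (h0 x hxL)
  have hts : tsupport (f : E n → ℝ) ⊆ L := closure_minimal hsupp hL.isClosed
  refine ⟨f, interior V ∩ Ω, f.contMDiff.contDiff, hL.of_isClosed_subset isClosed_closure hts,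
    hts.trans hLΩ, fun y => ⟨(hf y).1, (hf y).2⟩, hVo, fun x hx => ⟨?_, h hx⟩, inter_subset_right,
    fun y hy => hVf y (interior_subset hy.1)⟩
  exact mem_interior_iff_mem_nhds.2 (mem_nhdsSet_iff_forall.1 hV x hx)

theorem christoffel_continuousOn {Ω : Set (E n)} (hΩ : IsOpen Ω)
    {g : E n → Matrix (Fin n) (Fin n) ℝ} (hg : ∀ a b, ContDiffOn ℝ ∞ (fun y => g y a b) Ω)
    (hpos : ∀ y ∈ Ω, (g y).PosDef) (c a b : Fin n) :
    ContinuousOn (fun y => christoffel g y c a b) Ω := by
  have hgc : ∀ a b, ContinuousOn (fun y => g y a b) Ω := fun a b => (hg a b).continuousOn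
  have hgm : ContinuousOn g Ω := continuousOn_pi.2 fun a => continuousOn_pi.2 fun b => hgc a b
  have hinv : ContinuousOn (fun y => (g y)⁻¹) Ω := by
    intro y hy
    have hu : IsUnit (g y).det := (hpos y hy).det_pos.ne'.isUnit
    have h1 : ContinuousWithinAt (fun y => Ring.inverse (g y).det • (g y).adjugate) Ω y := by
      have h2 : ContinuousWithinAt (fun y => (g y).det) Ω y :=
        (continuous_id.matrix_det).continuousAt.comp_continuousWithinAt (hgm y hy)
      have h3 : ContinuousWithinAt (fun y => (g y).adjugate) Ω y :=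
        (continuous_id.matrix_adjugate).continuousAt.comp_continuousWithinAt (hgm y hy)
      have h4 : ContinuousWithinAt (fun y => Ring.inverse (g y).det) Ω y := by
        simp only [Ring.inverse_eq_inv']
        exact h2.inv₀ (hpos y hy).det_pos.ne'
      exact h4.smul h3
    exact h1
  have hinv' : ∀ d, ContinuousOn (fun y => (g y)⁻¹ c d) Ω := fun d =>
    continuousOn_pi.1 (continuousOn_pi.1 hinv c) d
  have hpd : ∀ d a b, ContinuousOn (fun y => pd d (fun z => g z a b) y) Ω := fun d a b =>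
    (contDiffOn_pd (k := 1) hΩ (hg a b) one_add_one_le_infty).continuousOn
  unfold christoffel
  exact continuousOn_const.mul (continuousOn_finsetSum _ fun d _ =>
    (hinv' d).mul (((hpd a b d).add (hpd b a d)).sub (hpd d a b)))

theorem exists_ctl {Ω : Set (E n)} (hΩ : IsOpen Ω)
    {g : E n → Matrix (Fin n) (Fin n) ℝ} (hg : ∀ a b, ContDiffOn ℝ ∞ (fun y => g y a b) Ω)
    (hpos : ∀ y ∈ Ω, (g y).PosDef) {B : Set (E n)} (hB : IsCompact B) (hBΩ : B ⊆ Ω) :
    ∃ lam Lam L : ℝ, Ctl g B lam Lam L := by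
  have hgc : ∀ a b, ContinuousOn (fun y => g y a b) B := fun a b =>
    (hg a b).continuousOn.mono hBΩ
  -- lower bound
  obtain ⟨lam, hlam, hlam1, hlow⟩ : ∃ lam : ℝ, 0 < lam ∧ lam ≤ 1 ∧
      ∀ y ∈ B, ∀ v : E n, ‖v‖ = 1 → lam ≤ bil (g y) v v := by
    by_cases hne : (B ×ˢ Metric.sphere (0 : E n) 1).Nonempty
    · have hcomp : IsCompact (B ×ˢ Metric.sphere (0 : E n) 1) := hB.prod (isCompact_sphere _ _)
      have hcont : ContinuousOn (fun p : E n × E n => bil (g p.1) p.2 p.2)
          (B ×ˢ Metric.sphere (0 : E n) 1) := by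
        unfold bil
        refine continuousOn_finsetSum _ fun a _ => continuousOn_finsetSum _ fun b _ => ?_
        refine ((ContinuousOn.comp (hgc a b) continuousOn_fst fun p hp => hp.1).mul ?_).mul ?_
        · exact ((contDiff_coord (k := 0) a).continuous.comp continuous_snd).continuousOn
        · exact ((contDiff_coord (k := 0) b).continuous.comp continuous_snd).continuousOn
      obtain ⟨p, hp, hmin⟩ := hcomp.exists_isMinOn hne hcont
      have hp0 : 0 < bil (g p.1) p.2 p.2 := by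
        apply bil_pos (hpos _ (hBΩ hp.1))
        intro h0
        have := hp.2
        rw [h0] at this
        simp at this
      refine ⟨min 1 (bil (g p.1) p.2 p.2), lt_min one_pos hp0, min_le_left _ _,
        fun y hy v hv => (min_le_right _ _).trans ?_⟩
      exact hmin (show (y, v) ∈ B ×ˢ Metric.sphere (0 : E n) 1 from ⟨hy, by simpa using hv⟩)
    · refine ⟨1, one_pos, le_rfl, fun y hy v hv => ?_⟩
      exact absurd ⟨(y, v), hy, by simpa using hv⟩ hne
  -- upper bound
  obtain ⟨Lam, hLam⟩ : ∃ Lam : ℝ, ∀ y ∈ B, n1 (g y) ≤ Lam := by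
    have hcont : ContinuousOn (fun y => n1 (g y)) B := by
      unfold n1
      exact continuousOn_finsetSum _ fun a _ => continuousOn_finsetSum _ fun b _ => (hgc a b).abs
    obtain ⟨C, hC⟩ := hB.exists_bound_of_continuousOn hcont
    exact ⟨C, fun y hy => (le_abs_self _).trans (by simpa using hC y hy)⟩
  -- Lipschitz
  have hlip : ∀ a b, ∃ L : ℝ, 0 ≤ L ∧ ∀ y ∈ B, ∀ z ∈ B, |g z a b - g y a b| ≤ L * ‖y - z‖ := by
    intro a b
    have h1 : LocallyLipschitzOn B (fun y => g y a b) := by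
      intro x hx
      have : ContDiffAt ℝ 1 (fun y => g y a b) x :=
        ((hg a b).contDiffAt (hΩ.mem_nhds (hBΩ hx))).of_le (by
          exact one_le_two.trans two_le_infty)
      obtain ⟨K, t, ht, hK⟩ := this.exists_lipschitzOnWith
      exact ⟨K, t, mem_nhdsWithin_of_mem_nhds ht, hK⟩
    obtain ⟨L, hL⟩ := h1.exists_lipschitzOnWith_of_compact hB
    refine ⟨L, L.2, fun y hy z hz => ?_⟩
    have := hL.dist_le_mul z hz y hy
    rw [Real.dist_eq, dist_eq_norm, norm_sub_rev] at this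
    exact this
  choose L hL0 hL using hlip
  refine ⟨lam, max 1 Lam, ∑ a, ∑ b, L a b, hlam, hlam1, le_max_left _ _,
    Finset.sum_nonneg fun a _ => Finset.sum_nonneg fun b _ => hL0 a b,
    fun y hy => hpos y (hBΩ hy), ?_, fun y hy => (hLam y hy).trans (le_max_right _ _), ?_⟩
  · intro y hy v
    by_cases hv : v = 0
    · simp [hv, bil_zero_left]
    · have hv' : ‖v‖ ≠ 0 := norm_ne_zero_iff.2 hv
      have h1 := hlow y hy (‖v‖⁻¹ • v) (by rw [norm_smul, norm_inv, norm_norm]; field_simp)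
      rw [bil_smul_left, bil_smul_right] at h1
      have h2 : ‖v‖⁻¹ * (‖v‖⁻¹ * bil (g y) v v) = bil (g y) v v / ‖v‖ ^ 2 := by field_simp
      rw [h2, le_div_iff₀ (by positivity)] at h1
      exact h1
  · intro y hy z hz
    unfold n1
    rw [Finset.sum_mul]
    refine Finset.sum_le_sum fun a _ => ?_
    rw [Finset.sum_mul]
    exact Finset.sum_le_sum fun b _ => hL a b y hy z hz

/-- Hessian of a product with a cut-off function -/
theorem hess_mul_le {g : E n → Matrix (Fin n) (Fin n) ℝ} {χ S : E n → ℝ} {y : E n}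
    (hχ : ContDiff ℝ 2 χ) (hS : ContDiff ℝ 2 S) {v : E n} {M e ν : ℝ} (hM : 0 ≤ M)
    (he : 0 ≤ e)
    (h0 : 0 ≤ χ y) (h1 : χ y ≤ 1) (hSe : |S y| ≤ e) (hdS : ∀ c, |pd c S y| ≤ e)
    (hdχ : ∀ c, |pd c χ y| ≤ M) (hddχ : ∀ a b, |pd a (pd b χ) y| ≤ M)
    (hΓ : ∀ c a b, |christoffel g y c a b| ≤ M) (hv : ‖v‖ ^ 2 ≤ ν) :
    hess g (fun y => χ y * S y) y v ≤ χ y * (∑ a, ∑ b, pd a (pd b S) y * v a * v b) +
      n ^ 2 * ((3 * M + n * (M * (1 + M))) * e * ν) := by
  have dχ (x : E n) : DifferentiableAt ℝ χ x := hχ.differentiable (by norm_num) x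
  have dS (x : E n) : DifferentiableAt ℝ S x := hS.differentiable (by norm_num) x
  have dpχ (b : Fin n) (x : E n) : DifferentiableAt ℝ (pd b χ) x :=
    (contDiff_pd (k := 1) hχ (by norm_num)).differentiable (by norm_num) x
  have dpS (b : Fin n) (x : E n) : DifferentiableAt ℝ (pd b S) x :=
    (contDiff_pd (k := 1) hS (by norm_num)).differentiable (by norm_num) x
  have e1 : ∀ c, pd c (fun y => χ y * S y) = fun x => χ x * pd c S x + S x * pd c χ x := by
    intro c; ext x; rw [pd_mul (dχ x) (dS x)]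
  have e2 : ∀ a b, pd a (pd b (fun y => χ y * S y)) y =
      (χ y * pd a (pd b S) y + pd b S y * pd a χ y) +
        (S y * pd a (pd b χ) y + pd b χ y * pd a S y) := by
    intro a b
    rw [e1 b, pd_add (f := fun x => χ x * pd b S x) (g := fun x => S x * pd b χ x)
      ((dχ y).mul (dpS b y)) ((dS y).mul (dpχ b y)), pd_mul (dχ y) (dpS b y),
      pd_mul (dS y) (dpχ b y)]
  have hν : ∀ a b, |v a * v b| ≤ ν := by
    intro a b
    rw [abs_mul]
    have h1 := abs_coord_le v a
    have h2 := abs_coord_le v b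
    calc |v a| * |v b| ≤ ‖v‖ * ‖v‖ := by gcongr
      _ = ‖v‖ ^ 2 := by ring
      _ ≤ ν := hv
  have key : ∀ a b, (pd a (pd b (fun y => χ y * S y)) y -
      ∑ c, christoffel g y c a b * pd c (fun y => χ y * S y) y) * v a * v b ≤
      χ y * (pd a (pd b S) y * v a * v b) + (3 * M + n * (M * (1 + M))) * e * ν := by
    intro a b
    have f1 : |pd b S y * pd a χ y| ≤ e * M := by
      rw [abs_mul]; exact mul_le_mul (hdS b) (hdχ a) (abs_nonneg _) he
    have f2 : |S y * pd a (pd b χ) y| ≤ e * M := by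
      rw [abs_mul]; exact mul_le_mul hSe (hddχ a b) (abs_nonneg _) he
    have f3 : |pd b χ y * pd a S y| ≤ M * e := by
      rw [abs_mul]; exact mul_le_mul (hdχ b) (hdS a) (abs_nonneg _) hM
    have f4 : |∑ c, christoffel g y c a b * pd c (fun y => χ y * S y) y| ≤
        n * (M * (1 + M)) * e := by
      calc |∑ c, christoffel g y c a b * pd c (fun y => χ y * S y) y|
          ≤ ∑ c, |christoffel g y c a b * pd c (fun y => χ y * S y) y| :=
            Finset.abs_sum_le_sum_abs _ _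
        _ ≤ ∑ c : Fin n, M * (e + e * M) := by
            refine Finset.sum_le_sum fun c _ => ?_
            rw [abs_mul, e1 c]
            refine mul_le_mul (hΓ c a b) ?_ (abs_nonneg _) hM
            refine (abs_add_le _ _).trans (add_le_add ?_ ?_)
            · rw [abs_mul, abs_of_nonneg h0]
              calc χ y * |pd c S y| ≤ 1 * e := mul_le_mul h1 (hdS c) (abs_nonneg _) zero_le_one
                _ = e := one_mul _
            · rw [abs_mul]; exact mul_le_mul hSe (hdχ c) (abs_nonneg _) he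
        _ = n * (M * (1 + M)) * e := by
            simp; ring
    set X := pd b S y * pd a χ y
    set Y := S y * pd a (pd b χ) y
    set Z := pd b χ y * pd a S y
    set W := ∑ c, christoffel g y c a b * pd c (fun y => χ y * S y) y
    have e3 : (pd a (pd b (fun y => χ y * S y)) y - W) * v a * v b =
        χ y * (pd a (pd b S) y * v a * v b) + (X + Y + Z - W) * (v a * v b) := by
      rw [e2 a b]; ring
    rw [e3]
    have f5 : |X + Y + Z - W| ≤ (3 * M + n * (M * (1 + M))) * e := by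
      calc |X + Y + Z - W| ≤ |X + Y + Z| + |W| := abs_sub _ _
        _ ≤ |X| + |Y| + |Z| + |W| := by
            have := abs_add_three X Y Z
            linarith
        _ ≤ _ := by nlinarith
    have f6 : (X + Y + Z - W) * (v a * v b) ≤ (3 * M + n * (M * (1 + M))) * e * ν := by
      calc (X + Y + Z - W) * (v a * v b) ≤ |(X + Y + Z - W) * (v a * v b)| := le_abs_self _
        _ = |X + Y + Z - W| * |v a * v b| := abs_mul _ _
        _ ≤ _ := mul_le_mul f5 (hν a b) (abs_nonneg _) (by positivity)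
    linarith
  unfold hess
  calc _ ≤ ∑ a, ∑ b, (χ y * (pd a (pd b S) y * v a * v b) +
        (3 * M + n * (M * (1 + M))) * e * ν) :=
        Finset.sum_le_sum fun a _ => Finset.sum_le_sum fun b _ => key a b
    _ = _ := by
        simp only [Finset.sum_add_distrib, ← Finset.mul_sum]
        simp; ring

theorem hess_eq_zero {g : E n → Matrix (Fin n) (Fin n) ℝ} {w : E n → ℝ} {y : E n}
    (h : w =ᶠ[𝓝 y] 0) (v : E n) : hess g w y v = 0 := by
  have h0 : w =ᶠ[𝓝 y] (fun _ => (0 : ℝ)) := h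
  have h1 : ∀ b, pd b w y = 0 := fun b => by rw [pd_congr h0, pd_const]
  have h2 : ∀ a b, pd a (pd b w) y = 0 := fun a b => by
    have h3 : pd b w =ᶠ[𝓝 y] fun _ => (0 : ℝ) := by
      refine (pd_eventually_congr h0).trans (Eventually.of_forall fun x => ?_)
      exact pd_const b 0 x
    rw [pd_congr h3, pd_const]
  simp [hess, h1, h2]

/-- G2, from G1. -/
theorem euclid_barrier_of_cover (hm : 3 ≤ m) {Ω : Set (E n)} (hΩ : IsOpen Ω)
    (g : E n → Matrix (Fin n) (Fin n) ℝ) (hg : ∀ a b, ContDiffOn ℝ ∞ (fun y => g y a b) Ω)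
    (hpos : ∀ y ∈ Ω, (g y).PosDef) {K : Set (E n)} (hK : IsCompact K) (hKΩ : K ⊆ Ω)
    (hcov : ∀ ε : ℝ, 0 < ε → ∃ (k : ℕ) (z : Fin k → E n) (r : Fin k → ℝ),
      (∀ i, 0 < r i ∧ r i ≤ ε) ∧
      (∀ i, ∃ y ∈ K, dist y (z i) ≤ ε) ∧ (K ⊆ ⋃ i, Metric.ball (z i) (r i)) ∧
      (∀ y : E n, ∑ i, (r i) ^ m / (√((r i) ^ 2 + ‖y - z i‖ ^ 2)) ^ (m - 1) ≤ ε))
    {η : ℝ} (hη : 0 < η) :
    ∃ (w : E n → ℝ) (U : Set (E n)), ContDiff ℝ ∞ w ∧ HasCompactSupport w ∧ tsupport w ⊆ Ω ∧
      (∀ y, 0 ≤ w y ∧ w y ≤ η) ∧ IsOpen U ∧ K ⊆ U ∧ U ⊆ Ω ∧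
      (∀ y ∈ Ω, ∀ v : Fin m → E n, IsOrthoFamily (g y) v → ∑ k, hess g w y (v k) ≤ η) ∧
      (∀ y ∈ U, ∀ v : Fin m → E n, IsOrthoFamily (g y) v → ∑ k, hess g w y (v k) ≤ -2) := by
  obtain ⟨χ, V, hχ, hχc, hχΩ, hχ01, hV, hKV, hVΩ, hχ1⟩ := exists_cutoff hK hΩ hKΩ
  obtain ⟨δ, hδ, hδV⟩ := hK.exists_cthickening_subset_open hV hKV
  set B := tsupport χ ∪ Metric.cthickening δ K with hBdef
  have hBc : IsCompact B := hχc.union hK.cthickening
  have hBΩ : B ⊆ Ω := union_subset hχΩ (hδV.trans hVΩ)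
  obtain ⟨lam, Lam, L, hc⟩ := exists_ctl hΩ hg hpos hBc hBΩ
  -- bounds
  obtain ⟨M, hM0, hdχ, hddχ, hΓ⟩ : ∃ M : ℝ, 0 ≤ M ∧ (∀ y ∈ B, ∀ c, |pd c χ y| ≤ M) ∧
      (∀ y ∈ B, ∀ a b, |pd a (pd b χ) y| ≤ M) ∧
      (∀ y ∈ B, ∀ c a b, |christoffel g y c a b| ≤ M) := by
    have h1 : ContinuousOn (fun y => (∑ c, |pd c χ y|) + (∑ a, ∑ b, |pd a (pd b χ) y|) +
        ∑ c, ∑ a, ∑ b, |christoffel g y c a b|) B := by
      refine ((continuousOn_finsetSum _ fun c _ => ?_).add (continuousOn_finsetSum _ fun a _ =>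
        continuousOn_finsetSum _ fun b _ => ?_)).add (continuousOn_finsetSum _ fun c _ =>
        continuousOn_finsetSum _ fun a _ => continuousOn_finsetSum _ fun b _ => ?_)
      · exact (contDiff_pd (k := 1) hχ one_add_one_le_infty).continuous.continuousOn.abs
      · refine ContinuousOn.abs (Continuous.continuousOn ?_)
        have h2 : ContDiff ℝ 2 χ := hχ.of_le two_le_infty
        have h3 : ContDiff ℝ 1 (pd b χ) := contDiff_pd h2 (by norm_num)
        exact (contDiff_pd (k := 0) h3 (by norm_num)).continuous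
      · exact ((christoffel_continuousOn hΩ hg hpos c a b).mono hBΩ).abs
    obtain ⟨C, hC⟩ := hBc.exists_bound_of_continuousOn h1
    have hC' : ∀ y ∈ B, (∑ c, |pd c χ y|) + (∑ a, ∑ b, |pd a (pd b χ) y|) +
        ∑ c, ∑ a, ∑ b, |christoffel g y c a b| ≤ C := fun y hy =>
      (le_abs_self _).trans (hC y hy)
    have n1' : ∀ y, 0 ≤ ∑ c, |pd c χ y| := fun y => Finset.sum_nonneg fun c _ => abs_nonneg _
    have n2' : ∀ y, 0 ≤ ∑ a, ∑ b, |pd a (pd b χ) y| := fun y =>
      Finset.sum_nonneg fun c _ => Finset.sum_nonneg fun c _ => abs_nonneg _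
    have n3' : ∀ y, 0 ≤ ∑ c, ∑ a, ∑ b, |christoffel g y c a b| := fun y =>
      Finset.sum_nonneg fun c _ => Finset.sum_nonneg fun c _ => Finset.sum_nonneg fun c _ =>
        abs_nonneg _
    refine ⟨max 0 C, le_max_left _ _, fun y hy c => ?_, fun y hy a b => ?_, fun y hy c a b => ?_⟩
    · have := Finset.single_le_sum (f := fun c => |pd c χ y|) (fun i _ => abs_nonneg _)
        (Finset.mem_univ c)
      have h2 := n2' y
      have h3 := n3' y
      have h4 := hC' y hy
      refine le_trans ?_ (le_max_right _ _)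
      linarith
    · have i1 := Finset.single_le_sum (f := fun b => |pd a (pd b χ) y|) (fun i _ => abs_nonneg _)
        (Finset.mem_univ b)
      have i2 := Finset.single_le_sum (f := fun a => ∑ b, |pd a (pd b χ) y|)
        (fun i _ => Finset.sum_nonneg fun c _ => abs_nonneg _) (Finset.mem_univ a)
      have h2 := n1' y
      have h3 := n3' y
      have h4 := hC' y hy
      refine le_trans ?_ (le_max_right _ _)
      linarith
    · have i1 := Finset.single_le_sum (f := fun b => |christoffel g y c a b|)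
        (fun i _ => abs_nonneg _) (Finset.mem_univ b)
      have i2 := Finset.single_le_sum (f := fun a => ∑ b, |christoffel g y c a b|)
        (fun i _ => Finset.sum_nonneg fun c _ => abs_nonneg _) (Finset.mem_univ a)
      have i3 := Finset.single_le_sum (f := fun c => ∑ a, ∑ b, |christoffel g y c a b|)
        (fun i _ => Finset.sum_nonneg fun c _ => Finset.sum_nonneg fun c _ => abs_nonneg _)
        (Finset.mem_univ c)
      have h2 := n1' y
      have h3 := n2' y
      have h4 := hC' y hy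
      refine le_trans ?_ (le_max_right _ _)
      linarith
  -- a bound for the radii
  obtain ⟨D, hD0, hD⟩ : ∃ D : ℝ, 0 ≤ D ∧ ∀ y ∈ B, ∀ z ∈ B, ‖y - z‖ ≤ D := by
    obtain ⟨D, hD⟩ := hBc.isBounded.exists_norm_le
    refine ⟨max 0 (2 * D), le_max_left _ _, fun y hy z hz => ?_⟩
    have := norm_sub_le y z
    have h1 := hD y hy
    have h2 := hD z hz
    exact le_trans (by linarith) (le_max_right _ _)
  set κ := lam ^ (-(((m + 2 : ℕ) : ℝ) / 2)) with hκdef
  have hκ : 0 < κ := Real.rpow_pos_of_pos hc.lam_pos _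
  have hLam : 0 < Lam := zero_lt_one.trans_le hc.one_le
  have hL0 := hc.L_nonneg
  have hlam := hc.lam_pos
  set c1 := (2 * Lam) ^ (-(((m + 2 : ℕ) : ℝ) / 2)) with hc1def
  have hc1 : 0 < c1 := Real.rpow_pos_of_pos (by positivity) _
  have hm' : (3 : ℝ) ≤ m := by exact_mod_cast hm
  have hm2 : (0 : ℝ) < (m : ℝ) - 2 := by linarith
  set A := 3 / (m * (m - 2) * c1) with hAdef
  have hA : 0 < A := by positivity
  set C0 := m * (m - 2) * ((L + 4 * m * Lam * L / lam) + Lam * (L / lam)) * κ with hC0def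
  have hC0 : 0 ≤ C0 := by positivity
  set C1 := κ * (1 + D) + m * Lam * κ with hC1def
  have hC1 : 0 ≤ C1 := by positivity
  set C2 := n ^ 2 * ((3 * M + n * (M * (1 + M))) * (A * C1) * (1 / lam)) with hC2def
  have hC2 : 0 ≤ C2 := by positivity
  set C3 := A * C0 + m * C2 + A * C1 + 1 with hC3def
  have hC3 : 0 < C3 := by positivity
  set ε := min (min 1 (δ / 2)) (min 1 η / C3) with hεdef
  have hε : 0 < ε := by positivity
  have hε1 : ε ≤ 1 := (min_le_left _ _).trans (min_le_left _ _)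
  have hεδ : ε ≤ δ / 2 := (min_le_left _ _).trans (min_le_right _ _)
  have hεC : C3 * ε ≤ min 1 η := by
    have : ε ≤ min 1 η / C3 := min_le_right _ _
    rw [le_div_iff₀ hC3] at this
    linarith
  obtain ⟨N, z, r, hr, hz, hKb, hsum⟩ := hcov ε hε
  have hzB : ∀ i, z i ∈ B := by
    intro i
    right
    obtain ⟨y, hy, hyz⟩ := hz i
    refine Metric.mem_cthickening_of_dist_le (z i) y δ K hy ?_
    rw [dist_comm]; linarith
  have hrp : ∀ i, 0 < r i := fun i => (hr i).1
  -- the sum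
  set S : E n → ℝ := fun y => ∑ i, A * bmp m (g (z i)) (z i) (r i) y with hSdef
  have hSs : ContDiff ℝ ∞ S := ContDiff.sum fun i _ =>
    contDiff_const.mul (contDiff_bmp m (hpos _ (hBΩ (hzB i))) (z i) (hrp i))
  set w : E n → ℝ := fun y => χ y * S y with hwdef
  set e : E n → ℝ := fun y => ∑ i, err m (z i) (r i) y with hedef
  have he0 : ∀ y, 0 ≤ e y := fun y => Finset.sum_nonneg fun i _ => (err_pos m (z i) (hrp i) y).le
  have heε : ∀ y, e y ≤ ε := hsum
  have hS0 : ∀ y, 0 ≤ S y := fun y => Finset.sum_nonneg fun i _ =>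
    mul_nonneg hA.le (hc.bmp_nonneg (hzB i) y (hrp i))
  have hSle : ∀ y ∈ B, S y ≤ A * C1 * e y := by
    intro y hy
    rw [hSdef, hedef, Finset.mul_sum]
    refine Finset.sum_le_sum fun i _ => ?_
    have h1 := hc.bmp_le hm (hzB i) y (hrp i)
    have h2 : rad (z i) (r i) y ≤ 1 + D := by
      unfold rad
      apply Real.sqrt_le_iff.2 ⟨by positivity, ?_⟩
      have h3 := hD y hy (z i) (hzB i)
      have h4 : r i ≤ 1 := (hr i).2.trans hε1
      have h5 := hrp i
      have h6 : ‖y - z i‖ ^ 2 ≤ D ^ 2 := by gcongr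
      have h7 : r i ^ 2 ≤ 1 := by nlinarith
      nlinarith
    have h3 := (err_pos m (z i) (hrp i) y).le
    have h4 : bmp m (g (z i)) (z i) (r i) y ≤ C1 * err m (z i) (r i) y := by
      refine h1.trans ?_
      have : κ * rad (z i) (r i) y ≤ C1 := by
        have : κ * rad (z i) (r i) y ≤ κ * (1 + D) := by gcongr
        have h5 : 0 ≤ m * Lam * κ := by positivity
        linarith
      exact mul_le_mul_of_nonneg_right this h3
    calc A * bmp m (g (z i)) (z i) (r i) y ≤ A * (C1 * err m (z i) (r i) y) := by gcongr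
      _ = _ := by ring
  have hdbmp (i : Fin N) (x : E n) : DifferentiableAt ℝ (bmp m (g (z i)) (z i) (r i)) x :=
    (contDiff_bmp m (hpos _ (hBΩ (hzB i))) (z i) (hrp i)).differentiable (by norm_num) x
  have hpdS : ∀ c, pd c S = fun y => ∑ i, A * pd c (bmp m (g (z i)) (z i) (r i)) y := by
    intro c; ext y
    rw [hSdef, pd_sum (f := fun i (y : E n) => A * bmp m (g (z i)) (z i) (r i) y)
      (fun i _ => (hdbmp i y).const_mul A)]
    refine Finset.sum_congr rfl fun i _ => ?_
    rw [pd_const_mul _ (hdbmp i y)]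
  have hdS : ∀ y ∈ B, ∀ c, |pd c S y| ≤ A * C1 * e y := by
    intro y hy c
    rw [hpdS c, hedef, Finset.mul_sum]
    refine (Finset.abs_sum_le_sum_abs _ _).trans (Finset.sum_le_sum fun i _ => ?_)
    rw [abs_mul, abs_of_pos hA]
    have h1 := hc.abs_pd_bmp_le hm (hzB i) y (hrp i) c
    have h3 := (err_pos m (z i) (hrp i) y).le
    have h4 : m * Lam * κ ≤ C1 := by
      have : 0 ≤ κ * (1 + D) := by positivity
      linarith
    calc A * |pd c (bmp m (g (z i)) (z i) (r i)) y|
        ≤ A * ((m * Lam * κ) * err m (z i) (r i) y) := by gcongr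
      _ ≤ A * (C1 * err m (z i) (r i) y) := by gcongr
      _ = _ := by ring
  have hpdpd (i : Fin N) (b : Fin n) (x : E n) :
      DifferentiableAt ℝ (pd b (bmp m (g (z i)) (z i) (r i))) x :=
    (contDiff_pd (k := 1) (contDiff_bmp m (hpos _ (hBΩ (hzB i))) (z i) (hrp i))
      one_add_one_le_infty).differentiable (by norm_num) x
  have hddS : ∀ a b y, pd a (pd b S) y =
      ∑ i, A * pd a (pd b (bmp m (g (z i)) (z i) (r i))) y := by
    intro a b y
    rw [hpdS b, pd_sum (f := fun i (y : E n) => A * pd b (bmp m (g (z i)) (z i) (r i)) y)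
      (fun i _ => (hpdpd i b y).const_mul A)]
    refine Finset.sum_congr rfl fun i _ => ?_
    rw [pd_const_mul _ (hpdpd i b y)]
  -- main terms
  set T : Fin N → E n → ℝ := fun i y =>
    r i ^ (m + 2) * (r i ^ 2 + quad (g (z i)) (z i) y) ^ (-(((m + 2 : ℕ) : ℝ) / 2)) with hTdef
  have hT0 : ∀ i y, 0 ≤ T i y := by
    intro i y
    have h1 := Q_pos (hpos _ (hBΩ (hzB i))) (z i) (hrp i) y
    have h2 := hrp i
    simp only [hTdef]; positivity
  have htrace : ∀ y ∈ B, ∀ v : Fin m → E n, IsOrthoFamily (g y) v →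
      ∑ k, ∑ a, ∑ b, pd a (pd b S) y * v k a * v k b ≤
        -(A * (m * (m - 2)) * ∑ i, T i y) + A * C0 * e y := by
    intro y hy v hv
    have h1 : ∑ k, ∑ a, ∑ b, pd a (pd b S) y * v k a * v k b =
        ∑ i, A * ∑ k, ∑ a, ∑ b, pd a (pd b (bmp m (g (z i)) (z i) (r i))) y * v k a * v k b := by
      simp only [hddS, Finset.sum_mul, Finset.mul_sum]
      have h2 : ∀ k, ∑ a, ∑ b, ∑ i, A * pd a (pd b (bmp m (g (z i)) (z i) (r i))) y *
          v k a * v k b = ∑ i, ∑ a, ∑ b, A * (pd a (pd b (bmp m (g (z i)) (z i) (r i))) y *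
          v k a * v k b) := by
        intro k
        rw [Finset.sum_comm_cycle]
        exact Finset.sum_congr rfl fun i _ => Finset.sum_congr rfl fun a _ =>
          Finset.sum_congr rfl fun b _ => by ring
      rw [Finset.sum_congr rfl fun k _ => h2 k, Finset.sum_comm]
    rw [h1]
    have h2 : ∀ i ∈ Finset.univ, A * ∑ k, ∑ a, ∑ b,
        pd a (pd b (bmp m (g (z i)) (z i) (r i))) y * v k a * v k b ≤
        A * (-(m * (m - 2) * T i y) + C0 * err m (z i) (r i) y) := by
      intro i _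
      exact mul_le_mul_of_nonneg_left (hc.trace_bmp_le hm hy (hzB i) (hrp i) hv) hA.le
    refine (Finset.sum_le_sum h2).trans (le_of_eq ?_)
    rw [hedef]
    simp only [mul_add, Finset.sum_add_distrib, Finset.mul_sum, ← Finset.sum_neg_distrib]
    congr 1
    · exact Finset.sum_congr rfl fun i _ => by ring
    · exact Finset.sum_congr rfl fun i _ => by ring
  have hhess : ∀ y ∈ B, ∀ v : Fin m → E n, IsOrthoFamily (g y) v →
      ∑ k, hess g w y (v k) ≤ -(χ y * (A * (m * (m - 2)) * ∑ i, T i y)) + C3 * ε := by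
    intro y hy v hv
    have h1 : ∀ k ∈ Finset.univ, hess g w y (v k) ≤
        χ y * (∑ a, ∑ b, pd a (pd b S) y * v k a * v k b) +
        n ^ 2 * ((3 * M + n * (M * (1 + M))) * (A * C1 * e y) * (1 / lam)) := by
      intro k _
      refine hess_mul_le (hχ.of_le two_le_infty) (hSs.of_le two_le_infty) hM0
        (mul_nonneg (mul_nonneg hA.le hC1) (he0 y)) (hχ01 y).1 (hχ01 y).2 ?_
        (hdS y hy) (hdχ y hy) (hddχ y hy) (hΓ y hy) (hc.norm_sq_le hy hv k)
      rw [abs_of_nonneg (hS0 y)]; exact hSle y hy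
    refine (Finset.sum_le_sum h1).trans ?_
    rw [Finset.sum_add_distrib, ← Finset.mul_sum]
    have h2 := mul_le_mul_of_nonneg_left (htrace y hy v hv) (hχ01 y).1
    have h3 : ∑ _k : Fin m, (n : ℝ) ^ 2 * ((3 * M + n * (M * (1 + M))) * (A * C1 * e y) *
        (1 / lam)) = m * C2 * e y := by
      simp [hC2def]; ring
    rw [h3]
    have h4 : χ y * (A * C0 * e y) ≤ A * C0 * e y := by
      have : 0 ≤ A * C0 * e y := mul_nonneg (by positivity) (he0 y)
      have := (hχ01 y).2
      nlinarith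
    have h5 : A * C0 * e y + m * C2 * e y ≤ C3 * ε := by
      have h6 : A * C0 * e y + m * C2 * e y = (A * C0 + m * C2) * e y := by ring
      rw [h6]
      have h7 : A * C0 + m * C2 ≤ C3 := by
        have : 0 ≤ A * C1 := by positivity
        linarith
      have h8 := heε y
      have h9 := he0 y
      exact mul_le_mul h7 h8 h9 hC3.le
    rw [mul_add] at h2
    have h10 : χ y * -(A * (m * (m - 2)) * ∑ i, T i y) =
      -(χ y * (A * (m * (m - 2)) * ∑ i, T i y)) := by ring
    rw [h10] at h2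
    linarith
  have hw_supp : tsupport w ⊆ tsupport χ := closure_mono (Function.support_mul_subset_left _ _)
  have hballs : ∀ i, Metric.ball (z i) (r i) ⊆ Metric.cthickening δ K := by
    intro i y hy
    obtain ⟨x, hx, hxz⟩ := hz i
    refine Metric.mem_cthickening_of_dist_le y x δ K hx ?_
    have h1 := Metric.mem_ball.1 hy
    have h2 := dist_triangle_right y x (z i)
    have h3 := (hr i).2
    linarith
  refine ⟨w, ⋃ i, Metric.ball (z i) (r i), hχ.mul hSs, hχc.of_isClosed_subset isClosed_closure hw_supp, hw_supp.trans hχΩ,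
    ?_, isOpen_iUnion fun i => Metric.isOpen_ball, hKb,
    iUnion_subset fun i => (hballs i).trans (hδV.trans hVΩ), ?_, ?_⟩
  · intro y
    refine ⟨mul_nonneg (hχ01 y).1 (hS0 y), ?_⟩
    by_cases hy : y ∈ B
    · have h1 := hSle y hy
      have h2 : A * C1 * e y ≤ C3 * ε := by
        have h7 : A * C1 ≤ C3 := by
          have : 0 ≤ A * C0 + m * C2 := by positivity
          linarith
        exact mul_le_mul h7 (heε y) (he0 y) hC3.le
      have h3 : χ y * S y ≤ S y := by
        have := (hχ01 y).2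
        nlinarith [hS0 y]
      have h4 : min 1 η ≤ η := min_le_right _ _
      show χ y * S y ≤ η
      linarith
    · have : χ y = 0 := by
        have h1 : y ∉ tsupport χ := fun h => hy (Or.inl h)
        exact image_eq_zero_of_notMem_tsupport h1
      show χ y * S y ≤ η
      rw [this, zero_mul]; exact hη.le
  · intro y hy v hv
    by_cases hyB : y ∈ B
    · have h1 := hhess y hyB v hv
      have h2 : 0 ≤ χ y * (A * (m * (m - 2)) * ∑ i, T i y) := by
        have h3 : 0 ≤ ∑ i, T i y := Finset.sum_nonneg fun i _ => hT0 i y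
        have h4 := (hχ01 y).1
        positivity
      have h4 : min 1 η ≤ η := min_le_right _ _
      linarith
    · have h1 : y ∉ tsupport w := fun h => hyB (Or.inl (hw_supp h))
      have h2 : w =ᶠ[𝓝 y] 0 := notMem_tsupport_iff_eventuallyEq.1 h1
      rw [Finset.sum_eq_zero fun k _ => hess_eq_zero h2 (v k)]
      exact hη.le
  · intro y hy v hv
    obtain ⟨i, hi⟩ := mem_iUnion.1 hy
    have hyB : y ∈ B := Or.inr (hballs i hi)
    have h1 := hhess y hyB v hv
    rw [hχ1 y (hδV (hballs i hi)), one_mul] at h1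
    have h2 : c1 ≤ T i y := hc.main_ge (hzB i) (hrp i) (by
      rw [← dist_eq_norm]; exact (Metric.mem_ball.1 hi).le)
    have h3 : c1 ≤ ∑ i, T i y :=
      h2.trans (Finset.single_le_sum (f := fun i => T i y) (fun i _ => hT0 i y)
        (Finset.mem_univ i))
    have h4 : A * (m * (m - 2)) * c1 = 3 := by
      rw [hAdef]; field_simp
    have h5 : A * (m * (m - 2)) * c1 ≤ A * (m * (m - 2)) * ∑ i, T i y := by gcongr
    have h6 : min 1 η ≤ 1 := min_le_left _ _
    linarith

end Pool.Agent.helper43.MS
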