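import Pool.Agent.helper43.MS.Quad

open Bundle Manifold MeasureTheory Set Filter Topology
open scoped ContDiff ENNReal

namespace Pool.Agent.helper43.MS

variable {n m : ℕ}

theorem one_add_one_le_infty : (1 : WithTop ℕ∞) + 1 ≤ ((⊤ : ℕ∞) : WithTop ℕ∞) :=
  WithTop.coe_le_coe.2 (le_top : (1 + 1 : ℕ∞) ≤ ⊤)

/-- Quantitative control of the metric coefficients on a set `B`. -/
structure Ctl (g : E n → Matrix (Fin n) (Fin n) ℝ) (B : Set (E n)) (lam Lam L : ℝ) : Prop where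
  lam_pos : 0 < lam
  lam_le : lam ≤ 1
  one_le : 1 ≤ Lam
  L_nonneg : 0 ≤ L
  posDef : ∀ y ∈ B, (g y).PosDef
  lower : ∀ y ∈ B, ∀ v : E n, lam * ‖v‖ ^ 2 ≤ bil (g y) v v
  n1_le : ∀ y ∈ B, n1 (g y) ≤ Lam
  lip : ∀ y ∈ B, ∀ z ∈ B, n1 (g z - g y) ≤ L * ‖y - z‖

theorem n1_sub_le (G G' : Matrix (Fin n) (Fin n) ℝ) : n1 (G - G') ≤ n1 G + n1 G' := by
  unfold n1
  rw [← Finset.sum_add_distrib]
  refine Finset.sum_le_sum fun a _ => ?_
  rw [← Finset.sum_add_distrib]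
  refine Finset.sum_le_sum fun b _ => ?_
  rw [Matrix.sub_apply]
  exact abs_sub _ _

variable {g : E n → Matrix (Fin n) (Fin n) ℝ} {B : Set (E n)} {lam Lam L : ℝ}

theorem Ctl.norm_sq_le (hc : Ctl g B lam Lam L) {y : E n} (hy : y ∈ B) {v : Fin m → E n}
    (hv : IsOrthoFamily (g y) v) (k : Fin m) : ‖v k‖ ^ 2 ≤ 1 / lam := by
  have h1 := hc.lower y hy (v k)
  have h2 : bil (g y) (v k) (v k) = 1 := by
    have := (isOrthoFamily_iff.1 hv) k k
    simpa using this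
  rw [h2] at h1
  rw [le_div_iff₀ hc.lam_pos]
  linarith

/-- upper bound for `∑_k g(z)(v_k, y - z)²` -/
theorem Ctl.S1_le (hc : Ctl g B lam Lam L) {y z : E n} (hy : y ∈ B) (hz : z ∈ B) {v : Fin m → E n}
    (hv : IsOrthoFamily (g y) v) :
    ∑ k, bil (g z) (v k) (y - z) ^ 2 ≤
      bil (g z) (y - z) (y - z) + (L + 4 * m * Lam * L / lam) * ‖y - z‖ ^ 3 := by
  set ρ := ‖y - z‖ with hρ
  have hρ0 : 0 ≤ ρ := norm_nonneg _
  have hlam := hc.lam_pos
  have hL := hc.L_nonneg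
  have hLam : 0 ≤ Lam := zero_le_one.trans hc.one_le
  have hd1 : n1 (g z - g y) ≤ L * ρ := hc.lip y hy z hz
  have hd2 : n1 (g z - g y) ≤ 2 * Lam := by
    have := n1_sub_le (g z) (g y)
    have h1 := hc.n1_le y hy
    have h2 := hc.n1_le z hz
    linarith
  have hd0 := n1_nonneg (g z - g y)
  have hn0 := n1_nonneg (g y)
  have hny := hc.n1_le y hy
  -- each term
  have hk : ∀ k ∈ Finset.univ, bil (g z) (v k) (y - z) ^ 2 ≤
      bil (g y) (y - z) (v k) ^ 2 + 4 * Lam * L / lam * ρ ^ 3 := by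
    intro k _
    have e1 : bil (g z) (v k) (y - z) = bil (g y) (v k) (y - z) + bil (g z - g y) (v k) (y - z) := by
      rw [bil_matrix_sub]; ring
    have e2 : bil (g y) (v k) (y - z) = bil (g y) (y - z) (v k) :=
      bil_comm (PosDef.symm' (hc.posDef y hy)) _ _
    have b1 := abs_bil_le (g y) (v k) (y - z)
    have b2 := abs_bil_le (g z - g y) (v k) (y - z)
    have hvk := hc.norm_sq_le hy hv k
    rw [← hρ] at b1 b2
    rw [← e2, e1]
    set s := bil (g y) (v k) (y - z)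
    set t := bil (g z - g y) (v k) (y - z)
    set ν := ‖v k‖
    have hν : 0 ≤ ν := norm_nonneg _
    have ht : |t| ≤ L * ρ * ν * ρ := b2.trans (by gcongr)
    have hs : |s| ≤ Lam * ν * ρ := b1.trans (by gcongr)
    have ht' : |t| ≤ 2 * Lam * ν * ρ := b2.trans (by gcongr)
    have h1 : s * t ≤ (Lam * ν * ρ) * (L * ρ * ν * ρ) := by
      calc s * t ≤ |s * t| := le_abs_self _
        _ = |s| * |t| := abs_mul _ _
        _ ≤ _ := by gcongr
    have h2 : t ^ 2 ≤ (2 * Lam * ν * ρ) * (L * ρ * ν * ρ) := by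
      rw [← sq_abs, sq]
      gcongr
    have h3 : (Lam * ν * ρ) * (L * ρ * ν * ρ) = Lam * L * ρ ^ 3 * ν ^ 2 := by ring
    have h4 : (2 * Lam * ν * ρ) * (L * ρ * ν * ρ) = 2 * (Lam * L * ρ ^ 3 * ν ^ 2) := by ring
    have h5 : Lam * L * ρ ^ 3 * ν ^ 2 ≤ Lam * L * ρ ^ 3 * (1 / lam) := by gcongr
    have h6 : 4 * Lam * L / lam * ρ ^ 3 = 4 * (Lam * L * ρ ^ 3 * (1 / lam)) := by ring
    rw [h6]
    nlinarith
  have hB := bessel (hc.posDef y hy) hv (y - z)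
  have hyz : bil (g y) (y - z) (y - z) ≤ bil (g z) (y - z) (y - z) + L * ρ ^ 3 := by
    have e1 : bil (g z) (y - z) (y - z) =
        bil (g y) (y - z) (y - z) + bil (g z - g y) (y - z) (y - z) := by
      rw [bil_matrix_sub]; ring
    have b2 := abs_bil_le (g z - g y) (y - z) (y - z)
    rw [← hρ] at b2
    have b3 : |bil (g z - g y) (y - z) (y - z)| ≤ L * ρ * ρ * ρ := b2.trans (by gcongr)
    have := (abs_le.1 b3).1
    rw [e1]
    nlinarith
  calc ∑ k, bil (g z) (v k) (y - z) ^ 2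
      ≤ ∑ k, (bil (g y) (y - z) (v k) ^ 2 + 4 * Lam * L / lam * ρ ^ 3) := Finset.sum_le_sum hk
    _ = ∑ k, bil (g y) (y - z) (v k) ^ 2 + m * (4 * Lam * L / lam * ρ ^ 3) := by
        rw [Finset.sum_add_distrib]; simp
    _ ≤ _ := by
        have : (L + 4 * m * Lam * L / lam) * ρ ^ 3 = L * ρ ^ 3 + m * (4 * Lam * L / lam * ρ ^ 3) := by
          ring
        rw [this]
        linarith

/-- lower bound for `∑_k g(z)(v_k, v_k)` -/
theorem Ctl.S2_ge (hc : Ctl g B lam Lam L) {y z : E n} (hy : y ∈ B) (hz : z ∈ B) {v : Fin m → E n}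
    (hv : IsOrthoFamily (g y) v) :
    (m : ℝ) - m * (L / lam) * ‖y - z‖ ≤ ∑ k, bil (g z) (v k) (v k) := by
  set ρ := ‖y - z‖ with hρ
  have hρ0 : 0 ≤ ρ := norm_nonneg _
  have hlam := hc.lam_pos
  have hL := hc.L_nonneg
  have hd1 : n1 (g z - g y) ≤ L * ρ := hc.lip y hy z hz
  have hk : ∀ k ∈ (Finset.univ : Finset (Fin m)), 1 - L / lam * ρ ≤ bil (g z) (v k) (v k) := by
    intro k _
    have e1 : bil (g z) (v k) (v k) = bil (g y) (v k) (v k) + bil (g z - g y) (v k) (v k) := by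
      rw [bil_matrix_sub]; ring
    have h2 : bil (g y) (v k) (v k) = 1 := by
      have := (isOrthoFamily_iff.1 hv) k k
      simpa using this
    have b2 := abs_bil_le (g z - g y) (v k) (v k)
    have hvk := hc.norm_sq_le hy hv k
    have b3 : |bil (g z - g y) (v k) (v k)| ≤ L * ρ * (1 / lam) := by
      refine b2.trans ?_
      rw [mul_assoc, ← sq]
      gcongr
    have := (abs_le.1 b3).1
    have e : L / lam * ρ = L * ρ * (1 / lam) := by ring
    rw [e1, h2, e]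
    linarith
  calc (m : ℝ) - m * (L / lam) * ρ = ∑ k : Fin m, (1 - L / lam * ρ) := by
        simp; ring
    _ ≤ _ := Finset.sum_le_sum hk

theorem rpow_neg_half {R : ℝ} (hR : 0 < R) (k : ℕ) : (R ^ 2) ^ (-((k : ℝ) / 2)) = 1 / R ^ k := by
  rw [← Real.rpow_natCast R 2, ← Real.rpow_mul hR.le]
  have : ((2 : ℕ) : ℝ) * (-((k : ℝ) / 2)) = -(k : ℝ) := by push_cast; ring
  rw [this, Real.rpow_neg hR.le, Real.rpow_natCast, one_div]

/-- `Q^{-k/2} ≤ κ / R^k` -/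
theorem Q_rpow_le {lam Q R : ℝ} (hl : 0 < lam) (hl1 : lam ≤ 1) (hR : 0 < R) (hQ : lam * R ^ 2 ≤ Q)
    {k K : ℕ} (hk : k ≤ K) : Q ^ (-((k : ℝ) / 2)) ≤ lam ^ (-((K : ℝ) / 2)) * (1 / R ^ k) := by
  have h1 : Q ^ (-((k : ℝ) / 2)) ≤ (lam * R ^ 2) ^ (-((k : ℝ) / 2)) :=
    Real.rpow_le_rpow_of_nonpos (by positivity) hQ (by
      have : (0 : ℝ) ≤ (k : ℝ) := Nat.cast_nonneg k
      linarith)
  refine h1.trans ?_
  rw [Real.mul_rpow hl.le (by positivity), rpow_neg_half hR]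
  have h2 : lam ^ (-((k : ℝ) / 2)) ≤ lam ^ (-((K : ℝ) / 2)) := by
    apply Real.rpow_le_rpow_of_exponent_ge hl hl1
    have : (k : ℝ) ≤ (K : ℝ) := by exact_mod_cast hk
    linarith
  gcongr

/-- exponent of the barrier -/
noncomputable def pe (m : ℕ) : ℝ := -(((m - 2 : ℕ) : ℝ) / 2)

theorem pe_eq (hm : 3 ≤ m) : pe m = -((m : ℝ) - 2) / 2 := by
  unfold pe; rw [Nat.cast_sub (by omega)]; push_cast; ring

theorem pe_sub_one (hm : 3 ≤ m) : pe m - 1 = -((m : ℝ) / 2) := by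
  rw [pe_eq hm]; ring

theorem pe_sub_two (hm : 3 ≤ m) : pe m - 2 = -(((m + 2 : ℕ) : ℝ) / 2) := by
  rw [pe_eq hm]; push_cast; ring

/-- one bump -/
noncomputable def bmp (m : ℕ) (G : Matrix (Fin n) (Fin n) ℝ) (z : E n) (r : ℝ) (y : E n) : ℝ :=
  r ^ m * bar G z r (pe m) y

theorem contDiff_bmp (m : ℕ) {G : Matrix (Fin n) (Fin n) ℝ} (hG : G.PosDef) (z : E n) {r : ℝ}
    (hr : 0 < r) : ContDiff ℝ ∞ (bmp m G z r) :=
  contDiff_const.mul (contDiff_bar hG z hr _)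

/-- the radius `√(r² + |y - z|²)` -/
noncomputable def rad (z : E n) (r : ℝ) (y : E n) : ℝ := √(r ^ 2 + ‖y - z‖ ^ 2)

theorem rad_pos (z : E n) {r : ℝ} (hr : 0 < r) (y : E n) : 0 < rad z r y :=
  Real.sqrt_pos.2 (by positivity)

theorem rad_sq (z : E n) (r : ℝ) (y : E n) : rad z r y ^ 2 = r ^ 2 + ‖y - z‖ ^ 2 :=
  Real.sq_sqrt (by positivity)

theorem le_rad (z : E n) (r : ℝ) (y : E n) : ‖y - z‖ ≤ rad z r y := by
  apply Real.le_sqrt_of_sq_le
  nlinarith [sq_nonneg r]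

/-- error term -/
noncomputable def err (m : ℕ) (z : E n) (r : ℝ) (y : E n) : ℝ := r ^ m / rad z r y ^ (m - 1)

theorem err_pos (m : ℕ) (z : E n) {r : ℝ} (hr : 0 < r) (y : E n) : 0 < err m z r y := by
  have := rad_pos z hr y
  unfold err; positivity

theorem Ctl.Q_lower (hc : Ctl g B lam Lam L) {z : E n} (hz : z ∈ B) (y : E n) (r : ℝ) :
    lam * rad z r y ^ 2 ≤ r ^ 2 + quad (g z) z y := by
  rw [rad_sq]
  have h1 := hc.lower z hz (y - z)
  unfold quad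
  nlinarith [sq_nonneg r, hc.lam_le]

theorem Ctl.Q_upper (hc : Ctl g B lam Lam L) {z : E n} (hz : z ∈ B) (y : E n) (r : ℝ) :
    r ^ 2 + quad (g z) z y ≤ Lam * rad z r y ^ 2 := by
  rw [rad_sq]
  have h1 := abs_bil_le (g z) (y - z) (y - z)
  have h2 := le_abs_self (bil (g z) (y - z) (y - z))
  have h3 := hc.n1_le z hz
  have h4 : n1 (g z) * ‖y - z‖ * ‖y - z‖ ≤ Lam * ‖y - z‖ * ‖y - z‖ := by gcongr
  unfold quad
  nlinarith [sq_nonneg r, hc.one_le]

theorem abs_lin_le (G : Matrix (Fin n) (Fin n) ℝ) (z : E n) (a : Fin n) (y : E n) :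
    |lin G z a y| ≤ n1 G * ‖y - z‖ := by
  unfold lin n1
  rw [Finset.sum_mul]
  refine (Finset.abs_sum_le_sum_abs _ _).trans ?_
  refine le_trans ?_ (Finset.single_le_sum (f := fun a => (∑ b, |G a b|) * ‖y - z‖)
    (fun i _ => by positivity) (Finset.mem_univ a))
  rw [Finset.sum_mul]
  refine Finset.sum_le_sum fun d _ => ?_
  rw [abs_mul]
  have := abs_coord_le (y - z) d
  have h2 : (y - z) d = y d - z d := rfl
  rw [h2] at this
  gcongr

theorem Ctl.bmp_nonneg (hc : Ctl g B lam Lam L) {z : E n} (hz : z ∈ B) (y : E n) {r : ℝ}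
    (hr : 0 < r) : 0 ≤ bmp m (g z) z r y := by
  have := Q_pos (hc.posDef z hz) z hr y
  unfold bmp bar; positivity

/-- size of a bump -/
theorem Ctl.bmp_le (hc : Ctl g B lam Lam L) (hm : 3 ≤ m) {z : E n} (hz : z ∈ B) (y : E n) {r : ℝ}
    (hr : 0 < r) :
    bmp m (g z) z r y ≤ lam ^ (-(((m + 2 : ℕ) : ℝ) / 2)) * rad z r y * err m z r y := by
  have hR := rad_pos z hr y
  have h1 := Q_rpow_le hc.lam_pos hc.lam_le hR (hc.Q_lower hz y r) (k := m - 2) (K := m + 2)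
    (by omega)
  unfold bmp bar pe err
  have h2 : rad z r y ^ (m - 1) = rad z r y ^ (m - 2) * rad z r y := by
    rw [← pow_succ]; congr 1; omega
  rw [h2]
  have h3 : lam ^ (-(((m + 2 : ℕ) : ℝ) / 2)) * rad z r y *
      (r ^ m / (rad z r y ^ (m - 2) * rad z r y)) =
      r ^ m * (lam ^ (-(((m + 2 : ℕ) : ℝ) / 2)) * (1 / rad z r y ^ (m - 2))) := by
    field_simp
  rw [h3]
  gcongr

theorem pd_bmp {G : Matrix (Fin n) (Fin n) ℝ} (hG : G.PosDef) (z : E n) {r : ℝ} (hr : 0 < r)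
    (a : Fin n) (y : E n) :
    pd a (bmp m G z r) y = r ^ m * (2 * pe m * bar G z r (pe m - 1) y * lin G z a y) := by
  have : bmp m G z r = fun y => r ^ m * bar G z r (pe m) y := rfl
  rw [this, pd_const_mul _ ((contDiff_bar hG z hr _).differentiable (by norm_num) y),
    pd_bar hG z hr]

/-- gradient of a bump -/
theorem Ctl.abs_pd_bmp_le (hc : Ctl g B lam Lam L) (hm : 3 ≤ m) {z : E n} (hz : z ∈ B) (y : E n)
    {r : ℝ} (hr : 0 < r) (a : Fin n) :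
    |pd a (bmp m (g z) z r) y| ≤
      (m * Lam * lam ^ (-(((m + 2 : ℕ) : ℝ) / 2))) * err m z r y := by
  have hR := rad_pos z hr y
  have hQ := Q_pos (hc.posDef z hz) z hr y
  have h1 := Q_rpow_le hc.lam_pos hc.lam_le hR (hc.Q_lower hz y r) (k := m) (K := m + 2)
    (by omega)
  rw [← pe_sub_one hm] at h1
  have h2 := abs_lin_le (g z) z a y
  have h3 := hc.n1_le z hz
  have h4 := le_rad z r y
  have h5 : |lin (g z) z a y| ≤ Lam * rad z r y :=
    h2.trans (mul_le_mul h3 h4 (norm_nonneg _) (zero_le_one.trans hc.one_le))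
  have h6 : |2 * pe m| ≤ m := by
    rw [pe_eq hm, abs_le]
    have : (3 : ℝ) ≤ m := by exact_mod_cast hm
    constructor <;> linarith
  rw [pd_bmp (hc.posDef z hz) z hr]
  have h7 : 0 ≤ bar (g z) z r (pe m - 1) y := by unfold bar; positivity
  rw [abs_mul, abs_mul, abs_mul, abs_of_nonneg h7, abs_of_nonneg (by positivity : (0 : ℝ) ≤ r ^ m)]
  unfold err
  have hκ : 0 < lam ^ (-(((m + 2 : ℕ) : ℝ) / 2)) := Real.rpow_pos_of_pos hc.lam_pos _
  have h8 : rad z r y ^ m = rad z r y ^ (m - 1) * rad z r y := by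
    rw [← pow_succ]; congr 1; omega
  have h9 : bar (g z) z r (pe m - 1) y ≤
      lam ^ (-(((m + 2 : ℕ) : ℝ) / 2)) * (1 / rad z r y ^ m) := h1
  calc r ^ m * (|2 * pe m| * bar (g z) z r (pe m - 1) y * |lin (g z) z a y|)
      ≤ r ^ m * (m * (lam ^ (-(((m + 2 : ℕ) : ℝ) / 2)) * (1 / rad z r y ^ m)) *
        (Lam * rad z r y)) := by gcongr
    _ = _ := by rw [h8]; field_simp

/-- the trace of the second derivative of a bump -/
theorem Ctl.trace_bmp_le (hc : Ctl g B lam Lam L) (hm : 3 ≤ m) {y z : E n} (hy : y ∈ B)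
    (hz : z ∈ B) {r : ℝ} (hr : 0 < r) {v : Fin m → E n} (hv : IsOrthoFamily (g y) v) :
    ∑ k, ∑ a, ∑ b, pd a (pd b (bmp m (g z) z r)) y * v k a * v k b ≤
      -(m * (m - 2) * (r ^ (m + 2) * (r ^ 2 + quad (g z) z y) ^ (-(((m + 2 : ℕ) : ℝ) / 2)))) +
        (m * (m - 2) * ((L + 4 * m * Lam * L / lam) + Lam * (L / lam)) *
          lam ^ (-(((m + 2 : ℕ) : ℝ) / 2))) * err m z r y := by
  have hR := rad_pos z hr y
  have hQ := Q_pos (hc.posDef z hz) z hr y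
  have hlam := hc.lam_pos
  have hL := hc.L_nonneg
  have hLam : 0 < Lam := zero_lt_one.trans_le hc.one_le
  have hm' : (3 : ℝ) ≤ m := by exact_mod_cast hm
  have hm2 : (0 : ℝ) ≤ (m : ℝ) - 2 := by linarith
  -- formula
  have e0 : ∀ b, pd b (bmp m (g z) z r) = fun x => r ^ m * pd b (bar (g z) z r (pe m)) x := by
    intro b; ext x
    have : bmp m (g z) z r = fun y => r ^ m * bar (g z) z r (pe m) y := rfl
    rw [this, pd_const_mul _ ((contDiff_bar (hc.posDef z hz) z hr _).differentiable (by norm_num) x)]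
  have e1 : ∀ k, ∑ a, ∑ b, pd a (pd b (bmp m (g z) z r)) y * v k a * v k b =
      r ^ m * (4 * pe m * (pe m - 1) * bar (g z) z r (pe m - 2) y * bil (g z) (v k) (y - z) ^ 2 +
        2 * pe m * bar (g z) z r (pe m - 1) y * bil (g z) (v k) (v k)) := by
    intro k
    rw [← hess_bar (hc.posDef z hz) z hr, Finset.mul_sum]
    refine Finset.sum_congr rfl fun a _ => ?_
    rw [Finset.mul_sum]
    refine Finset.sum_congr rfl fun b _ => ?_
    rw [e0 b, pd_const_mul _ ((contDiff_pd (k := 1) (contDiff_bar (hc.posDef z hz) z hr _)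
      one_add_one_le_infty).differentiable (by norm_num) y)]
    ring
  rw [Finset.sum_congr rfl fun k _ => e1 k, ← Finset.mul_sum, Finset.sum_add_distrib,
    ← Finset.mul_sum, ← Finset.mul_sum]
  have e2 : bar (g z) z r (pe m - 1) y =
      (r ^ 2 + quad (g z) z y) * bar (g z) z r (pe m - 2) y := by
    unfold bar
    rw [show pe m - 1 = 1 + (pe m - 2) by ring, Real.rpow_add hQ, Real.rpow_one]
  have S1 := hc.S1_le hy hz hv
  have S2 := hc.S2_ge hy hz hv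
  have e3 : bar (g z) z r (pe m - 2) y =
      (r ^ 2 + quad (g z) z y) ^ (-(((m + 2 : ℕ) : ℝ) / 2)) := by
    unfold bar; rw [pe_sub_two hm]
  have hb := Q_rpow_le hc.lam_pos hc.lam_le hR (hc.Q_lower hz y r) (k := m + 2) (K := m + 2) le_rfl
  have hbar : 0 ≤ bar (g z) z r (pe m - 2) y := by unfold bar; positivity
  rw [← e3] at hb ⊢
  rw [e2]
  generalize hQm : bar (g z) z r (pe m - 2) y = Qm at hb hbar ⊢
  rw [pe_eq hm]
  have hQu := hc.Q_upper hz y r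
  have hle := le_rad z r y
  have hρ0 : 0 ≤ ‖y - z‖ := norm_nonneg _
  have hq : quad (g z) z y = bil (g z) (y - z) (y - z) := rfl
  rw [← hq] at S1
  unfold err
  set κ := lam ^ (-(((m + 2 : ℕ) : ℝ) / 2)) with hκdef
  have hκ : 0 < κ := Real.rpow_pos_of_pos hc.lam_pos _
  set R := rad z r y
  set ρ := ‖y - z‖
  set q := quad (g z) z y
  set s1 := ∑ k, bil (g z) (v k) (y - z) ^ 2
  set s2 := ∑ k, bil (g z) (v k) (v k)
  set c1 := L + 4 * m * Lam * L / lam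
  have hc1 : 0 ≤ c1 := by positivity
  set c2 := L / lam
  have hc2 : 0 ≤ c2 := by positivity
  have key : (m : ℝ) * s1 - (r ^ 2 + q) * s2 ≤ - (m * r ^ 2) + m * ((c1 + Lam * c2) * R ^ 3) := by
    have a1 : (m : ℝ) * s1 ≤ m * (q + c1 * ρ ^ 3) := by gcongr
    have a2 : (r ^ 2 + q) * (m - m * c2 * ρ) ≤ (r ^ 2 + q) * s2 := by gcongr
    have a3 : (r ^ 2 + q) * (c2 * ρ) ≤ (Lam * R ^ 2) * (c2 * R) := by gcongr
    have a4 : c1 * ρ ^ 3 ≤ c1 * R ^ 3 := by gcongr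
    have a5 : (m : ℝ) * ((r ^ 2 + q) * (c2 * ρ)) ≤ m * ((Lam * R ^ 2) * (c2 * R)) := by gcongr
    have a6 : (m : ℝ) * (c1 * ρ ^ 3) ≤ m * (c1 * R ^ 3) := by gcongr
    nlinarith
  have h8 : R ^ (m + 2) = R ^ (m - 1) * R ^ 3 := by
    rw [← pow_add]; congr 1; omega
  calc r ^ m * (4 * (-((m : ℝ) - 2) / 2) * (-((m : ℝ) - 2) / 2 - 1) * Qm * s1 +
        2 * (-((m : ℝ) - 2) / 2) * ((r ^ 2 + q) * Qm) * s2)
      = r ^ m * ((m - 2) * Qm) * (m * s1 - (r ^ 2 + q) * s2) := by ring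
    _ ≤ r ^ m * ((m - 2) * Qm) * (- (m * r ^ 2) + m * ((c1 + Lam * c2) * R ^ 3)) := by
        gcongr
    _ = -(m * (m - 2) * (r ^ (m + 2) * Qm)) +
        m * (m - 2) * (c1 + Lam * c2) * (r ^ m * R ^ 3) * Qm := by ring
    _ ≤ -(m * (m - 2) * (r ^ (m + 2) * Qm)) +
        m * (m - 2) * (c1 + Lam * c2) * (r ^ m * R ^ 3) * (κ * (1 / R ^ (m + 2))) := by
        gcongr
    _ = _ := by rw [h8]; field_simp

/-- the main term is bounded below near the centre of the bump -/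
theorem Ctl.main_ge (hc : Ctl g B lam Lam L) {y z : E n} (hz : z ∈ B) {r : ℝ} (hr : 0 < r)
    (hyz : ‖y - z‖ ≤ r) :
    (2 * Lam) ^ (-(((m + 2 : ℕ) : ℝ) / 2)) ≤
      r ^ (m + 2) * (r ^ 2 + quad (g z) z y) ^ (-(((m + 2 : ℕ) : ℝ) / 2)) := by
  have hQ := Q_pos (hc.posDef z hz) z hr y
  have hLam : 0 < Lam := zero_lt_one.trans_le hc.one_le
  have h1 := hc.Q_upper hz y r
  rw [rad_sq] at h1
  have h2 : r ^ 2 + quad (g z) z y ≤ (2 * Lam) * r ^ 2 := by
    have : ‖y - z‖ ^ 2 ≤ r ^ 2 := by gcongr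
    nlinarith
  have h3 : ((2 * Lam) * r ^ 2) ^ (-(((m + 2 : ℕ) : ℝ) / 2)) ≤
      (r ^ 2 + quad (g z) z y) ^ (-(((m + 2 : ℕ) : ℝ) / 2)) := by
    apply Real.rpow_le_rpow_of_nonpos hQ h2
    have : (0 : ℝ) ≤ ((m + 2 : ℕ) : ℝ) := Nat.cast_nonneg _
    linarith
  rw [Real.mul_rpow (by positivity) (by positivity), rpow_neg_half hr] at h3
  calc (2 * Lam) ^ (-(((m + 2 : ℕ) : ℝ) / 2))
      = r ^ (m + 2) * ((2 * Lam) ^ (-(((m + 2 : ℕ) : ℝ) / 2)) * (1 / r ^ (m + 2))) := by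
        field_simp
    _ ≤ _ := by gcongr

end Pool.Agent.helper43.MS
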