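import Mathlib

/-!
# Definitions: minimal immersions into Riemannian manifolds and the spectrum of the Laplacian

* `N` is a smooth manifold of dimension `n`, modelled on `E n = EuclideanSpace ℝ (Fin n)`, with
  Mathlib's Riemannian structure (`RiemannianBundle`) on its tangent bundle.
* `M` is a smooth manifold of dimension `m`, and `φ : M → N` a smooth immersion; `M` carries the
  induced metric `φ^* g`, so that `φ` is an isometric immersion.
-/

open Bundle Manifold MeasureTheory Set Filter Topology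
open scoped ContDiff ENNReal

namespace Pool.Agent.helper43.MS

/-- The model space `ℝ^k`. -/
abbrev E (k : ℕ) := EuclideanSpace ℝ (Fin k)

/-- The `i`-th vector of the standard basis of `ℝ^k`. -/
noncomputable abbrev bv {k : ℕ} (i : Fin k) : E k := EuclideanSpace.single i (1 : ℝ)

/-- The `i`-th partial derivative of a real function on `ℝ^k`. -/
noncomputable def pd {k : ℕ} (i : Fin k) (f : E k → ℝ) (x : E k) : ℝ := fderiv ℝ f x (bv i)

section Local

variable {n : ℕ}

/-- Christoffel symbols of the second kind `Γ^c_{ab}` at the point `y` of `ℝ^n` for the metric with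
coefficients `g a b`. -/
noncomputable def christoffel (g : E n → Matrix (Fin n) (Fin n) ℝ) (y : E n) (c a b : Fin n) : ℝ :=
  (1 / 2) * ∑ d, (g y)⁻¹ c d *
    (pd a (fun z => g z b d) y + pd b (fun z => g z a d) y - pd d (fun z => g z a b) y)

/-- The value on `(v, v)` of the Riemannian Hessian of `f : ℝ^n → ℝ` at `y`, for the metric with
coefficients `g a b`: `∑_{a,b} (∂_a ∂_b f - ∑_c Γ^c_{ab} ∂_c f) v_a v_b`. -/
noncomputable def hess (g : E n → Matrix (Fin n) (Fin n) ℝ) (f : E n → ℝ) (y v : E n) : ℝ :=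
  ∑ a, ∑ b, (pd a (pd b f) y - ∑ c, christoffel g y c a b * pd c f y) * v a * v b

/-- `v 0, ..., v (m-1)` is an orthonormal family for the inner product with matrix `G`. -/
def IsOrthoFamily {m : ℕ} (G : Matrix (Fin n) (Fin n) ℝ) (v : Fin m → E n) : Prop :=
  ∀ k l, ∑ a, ∑ b, G a b * v k a * v l b = if k = l then 1 else 0

/-- The Laplace-Beltrami operator of the metric with coefficients `G i j` on (an open subset of)
`ℝ^n`: `(1 / √det G) ∑_i ∂_i (√det G ∑_j G^{ij} ∂_j f)`. -/
noncomputable def laplace (G : E n → Matrix (Fin n) (Fin n) ℝ) (f : E n → ℝ) (x : E n) : ℝ :=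
  (1 / √((G x).det)) *
    ∑ i, pd i (fun z => √((G z).det) * ∑ j, (G z)⁻¹ i j * pd j f z) x

end Local

section Ambient

variable {n : ℕ} {N : Type*} [TopologicalSpace N] [ChartedSpace (E n) N]
  [RiemannianBundle (fun q : N => TangentSpace 𝓘(ℝ, E n) q)]

/-- The coefficients `⟪∂_a, ∂_b⟫` of the Riemannian metric of `N` in the chart `chartAt q`, as
functions of the coordinates `y`. -/
noncomputable def metricN (q : N) (y : E n) : Matrix (Fin n) (Fin n) ℝ := fun a b =>
  inner ℝ (mfderiv 𝓘(ℝ, E n) 𝓘(ℝ, E n) (chartAt (E n) q).symm y (bv a))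
    (mfderiv 𝓘(ℝ, E n) 𝓘(ℝ, E n) (chartAt (E n) q).symm y (bv b))

/-- The sum of the `m` smallest eigenvalues of the Hessian of `F` is at least `c` at every point of
`D`. By the variational characterisation of eigenvalues this says: for all orthonormal tangent
vectors `v_1, ..., v_m` at a point of `D`, `∑_k Hess F (v_k, v_k) ≥ c`. Everything is computed in
the charts of `N`. -/
def SumEigGE (n m : ℕ) {N : Type*} [TopologicalSpace N] [ChartedSpace (E n) N]
    [RiemannianBundle (fun q : N => TangentSpace 𝓘(ℝ, E n) q)]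
    (F : N → ℝ) (D : Set N) (c : ℝ) : Prop :=
  ∀ (q : N) (y : E n), y ∈ (chartAt (E n) q).target → (chartAt (E n) q).symm y ∈ D →
    ∀ v : Fin m → E n, IsOrthoFamily (metricN q y) v →
      c ≤ ∑ k, hess (metricN q) (F ∘ (chartAt (E n) q).symm) y (v k)

/-- `D` is uniformly `m`-convex: there is a `C²` function `F` on `N` with `F < 0` on `D`, `F = 0` on
`∂D`, and `λ_1 + ... + λ_m ≥ c > 0` on `D` for the ordered eigenvalues of the Hessian of `F`. -/
def IsUniformlyConvex (n m : ℕ) {N : Type*} [TopologicalSpace N] [ChartedSpace (E n) N]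
    [RiemannianBundle (fun q : N => TangentSpace 𝓘(ℝ, E n) q)] (D : Set N) : Prop :=
  ∃ F : N → ℝ, ContMDiff 𝓘(ℝ, E n) 𝓘(ℝ, ℝ) 2 F ∧ (∀ x ∈ D, F x < 0) ∧ (∀ x ∈ frontier D, F x = 0) ∧
    ∃ c : ℝ, 0 < c ∧ SumEigGE n m F D c

/-- `D` is `m`-convex in the pointwise sense: there is a `C²` function `F` on `N` with `F < 0` on
`D`, `F = 0` on `∂D`, and `λ_1 + ... + λ_m > 0` at every point of `D` for the ordered eigenvalues of
the Hessian of `F`. -/
def IsPointwiseConvex (n m : ℕ) {N : Type*} [TopologicalSpace N] [ChartedSpace (E n) N]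
    [RiemannianBundle (fun q : N => TangentSpace 𝓘(ℝ, E n) q)] (D : Set N) : Prop :=
  ∃ F : N → ℝ, ContMDiff 𝓘(ℝ, E n) 𝓘(ℝ, ℝ) 2 F ∧ (∀ x ∈ D, F x < 0) ∧ (∀ x ∈ frontier D, F x = 0) ∧
    ∀ (q : N) (y : E n), y ∈ (chartAt (E n) q).target → (chartAt (E n) q).symm y ∈ D →
      ∀ v : Fin m → E n, IsOrthoFamily (metricN q y) v →
        0 < ∑ k, hess (metricN q) (F ∘ (chartAt (E n) q).symm) y (v k)

end Ambient

section Immersion

variable (m n : ℕ) {M : Type*} [TopologicalSpace M] [ChartedSpace (E m) M]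
  {N : Type*} [TopologicalSpace N] [ChartedSpace (E n) N]

/-- `φ` is a smooth immersion. -/
def IsImm (φ : M → N) : Prop :=
  ContMDiff 𝓘(ℝ, E m) 𝓘(ℝ, E n) ∞ φ ∧
    ∀ p : M, Function.Injective (mfderiv 𝓘(ℝ, E m) 𝓘(ℝ, E n) φ p)

/-- The immersion `φ` in the charts `chartAt p` of `M` and `chartAt q` of `N`. -/
noncomputable def locRep (φ : M → N) (p : M) (q : N) (x : E m) : E n :=
  chartAt (E n) q (φ ((chartAt (E m) p).symm x))

variable [RiemannianBundle (fun q : N => TangentSpace 𝓘(ℝ, E n) q)]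

/-- The Gram matrix `⟪dφ_p(e_i), dφ_p(e_j)⟫` of the induced metric on `T_p M = ℝ^m`. -/
noncomputable def gram (φ : M → N) (p : M) : Matrix (Fin m) (Fin m) ℝ := fun i j =>
  inner ℝ (mfderiv 𝓘(ℝ, E m) 𝓘(ℝ, E n) φ p (bv i : E m))
    (mfderiv 𝓘(ℝ, E m) 𝓘(ℝ, E n) φ p (bv j : E m))

/-- The coefficients of the induced metric of `M` in the chart `chartAt p`, as functions of the
coordinates `x`. -/
noncomputable def metricM (φ : M → N) (p : M) (x : E m) : Matrix (Fin m) (Fin m) ℝ := fun i j =>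
  inner ℝ (mfderiv 𝓘(ℝ, E m) 𝓘(ℝ, E n) (φ ∘ (chartAt (E m) p).symm) x (bv i))
    (mfderiv 𝓘(ℝ, E m) 𝓘(ℝ, E n) (φ ∘ (chartAt (E m) p).symm) x (bv j))

/-- `μ` is the Riemannian volume of `M` for the induced metric: in every chart it is
`√det g dx`. -/
def IsRiemVolume [MeasurableSpace M] (φ : M → N) (μ : Measure M) : Prop :=
  ∀ (p : M) (s : Set (E m)), MeasurableSet s → s ⊆ (chartAt (E m) p).target →
    μ ((chartAt (E m) p).symm '' s) = ∫⁻ x in s, ENNReal.ofReal (√((metricM m n φ p x).det))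

/-- The `a`-th component, in the charts `chartAt p` and `chartAt q`, of the trace
`tr ∇dφ = m H` of the second fundamental form of the isometric immersion `φ`:
`Δ_M φ^a + ∑_{b,c} Γ^a_{bc}(φ) ∑_{i,j} g^{ij} ∂_i φ^b ∂_j φ^c`. -/
noncomputable def tension (φ : M → N) (p : M) (q : N) (x : E m) (a : Fin n) : ℝ :=
  laplace (metricM m n φ p) (fun z => locRep m n φ p q z a) x +
    ∑ b, ∑ c, christoffel (metricN q) (locRep m n φ p q x) a b c *
      ∑ i, ∑ j, (metricM m n φ p x)⁻¹ i j *
        pd i (fun z => locRep m n φ p q z b) x * pd j (fun z => locRep m n φ p q z c) x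

/-- `φ` is minimal: its mean curvature vanishes identically (computed in all charts). -/
def IsMinimal (φ : M → N) : Prop :=
  ∀ (p : M) (q : N) (x : E m), x ∈ (chartAt (E m) p).target →
    φ ((chartAt (E m) p).symm x) ∈ (chartAt (E n) q).source → ∀ a : Fin n,
      tension m n φ p q x a = 0

/-- The value `du_p(e_i)` of the differential of `u` on the `i`-th basis vector of
`T_p M = ℝ^m`. -/
noncomputable def diffM (u : M → ℝ) (p : M) (i : Fin m) : ℝ :=
  mfderiv 𝓘(ℝ, E m) 𝓘(ℝ, ℝ) u p (bv i : E m)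

/-- The inner product `⟪∇u, ∇v⟫` of the gradients of two functions at `p ∈ M`, for the induced
metric. -/
noncomputable def gradInner (φ : M → N) (u v : M → ℝ) (p : M) : ℝ :=
  ∑ i, ∑ j, (gram m n φ p)⁻¹ i j * diffM m u p i * diffM m v p j

/-- The Dirichlet form `∫_M ⟪∇u, ∇v⟫ dvol`. -/
noncomputable def dirichlet [MeasurableSpace M] (φ : M → N) (μ : Measure M) (u v : M → ℝ) : ℝ :=
  ∫ p, gradInner m n φ u v p ∂μ

/-- Test functions: smooth functions with compact support. -/
def IsTest (u : M → ℝ) : Prop :=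
  ContMDiff 𝓘(ℝ, E m) 𝓘(ℝ, ℝ) ∞ u ∧ HasCompactSupport u

/-- `f ∈ L²(M)` is an eigenfunction, with eigenvalue `lam`, of the Friedrichs extension of `-Δ` on
`C_c^∞(M)`, i.e. of the self-adjoint operator of the closure of the Dirichlet form: `f` is the
`L²`-limit of test functions `u_k` which form a Cauchy sequence for the Dirichlet form, and
`lim_k ∫ ⟪∇u_k, ∇v⟫ = lam ∫ f v` for every test function `v`. -/
def IsFriedrichsEigen [MeasurableSpace M] (φ : M → N) (μ : Measure M) (f : Lp ℝ 2 μ) (lam : ℝ) :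
    Prop :=
  ∃ u : ℕ → M → ℝ, (∀ k, IsTest m (u k)) ∧
    Tendsto (fun k => eLpNorm (fun p => u k p - f p) 2 μ) atTop (𝓝 0) ∧
    Tendsto (fun kl : ℕ × ℕ => dirichlet m n φ μ
      (fun p => u kl.1 p - u kl.2 p) (fun p => u kl.1 p - u kl.2 p)) (atTop ×ˢ atTop) (𝓝 0) ∧
    ∀ v : M → ℝ, IsTest m v →
      Tendsto (fun k => dirichlet m n φ μ (u k) v) atTop (𝓝 (lam * ∫ p, f p * v p ∂μ))

/-- The spectrum of (the Friedrichs extension of) `-Δ` on `M` is discrete: `L²(M)` has an orthonormal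
basis `s` of eigenfunctions, and for every `Λ` only finitely many elements of the basis have
eigenvalue at most `Λ`. -/
def HasDiscreteSpectrum [MeasurableSpace M] (φ : M → N) (μ : Measure M) : Prop :=
  ∃ (s : Set (Lp ℝ 2 μ)) (lam : Lp ℝ 2 μ → ℝ),
    Orthonormal ℝ ((↑) : s → Lp ℝ 2 μ) ∧
    (Submodule.span ℝ s).topologicalClosure = ⊤ ∧
    (∀ Λ : ℝ, {f ∈ s | lam f ≤ Λ}.Finite) ∧
    ∀ f ∈ s, IsFriedrichsEigen m n φ μ f (lam f)

end Immersion

/-- The limit set of `φ`: all limits of `φ(p_k)` for sequences `p_k` that leave every compact subset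
of `M`. -/
def limitSet {M N : Type*} [TopologicalSpace M] [TopologicalSpace N] (φ : M → N) : Set N :=
  {x | ∃ p : ℕ → M, Tendsto p atTop (cocompact M) ∧ Tendsto (fun k => φ (p k)) atTop (𝓝 x)}

/-! ### The example: a minimal immersion spiralling towards a flat piece of the boundary -/

section Example

/-- The open set `0 < s < log 2, θ > 0, |v| < 1` of `ℝ³`, with coordinates `(s, θ, v)`. -/
noncomputable def Mset : TopologicalSpace.Opens (E 3) where
  carrier := {x | 0 < x 0 ∧ x 0 < Real.log 2 ∧ 0 < x 1 ∧ -1 < x 2 ∧ x 2 < 1}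
  is_open' := by
    have h (i : Fin 3) : Continuous fun x : E 3 => x i := by fun_prop
    exact (isOpen_lt continuous_const (h 0)).inter ((isOpen_lt (h 0) continuous_const).inter
      ((isOpen_lt continuous_const (h 1)).inter ((isOpen_lt continuous_const (h 2)).inter
        (isOpen_lt (h 2) continuous_const))))

/-- The map `(s, θ, v) ↦ (e^s cos θ, e^s sin θ, e^{-θ} cos s, e^{-θ} sin s, v)`, i.e.
`(ζ, v) ↦ (e^ζ, e^{iζ}, v) ∈ ℂ × ℂ × ℝ` with `ζ = s + i θ`. -/
noncomputable def Phi (x : E 3) : E 5 :=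
  !₂[Real.exp (x 0) * Real.cos (x 1), Real.exp (x 0) * Real.sin (x 1),
    Real.exp (-x 1) * Real.cos (x 0), Real.exp (-x 1) * Real.sin (x 0), x 2]

/-- The immersion of the example. -/
noncomputable def phi0 (p : Mset) : E 5 := Phi p

/-- The defining function of the domain of the example. -/
noncomputable def F0 (y : E 5) : ℝ :=
  -y 2 + (1 + (y 0 ^ 2 + y 1 ^ 2 + y 3 ^ 2 + y 4 ^ 2) / 32) * y 2 ^ 2 / 2 +
    (max (y 0 ^ 2 + y 1 ^ 2 + y 3 ^ 2 + y 4 ^ 2 - 6) 0) ^ 3

/-- The domain of the example. -/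
def D0 : Set (E 5) := {y | F0 y < 0}

end Example

end Pool.Agent.helper43.MS
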