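import Pool.Agent.helper61.MS.C2
import Pool.Agent.helper61.MS.C3
import Pool.Agent.helper61.MS.C4
import Pool.Agent.helper68.MS.C5

open Bundle Manifold MeasureTheory Set Filter Topology
open scoped ContDiff ENNReal

namespace Pool.Agent.helper43.MS

/-- The example, all properties. -/
theorem example_all :
    ∃ (D : Set (E 5)) (M : TopologicalSpace.Opens (E 3)) (φ : M → E 5) (μ : Measure M),
      IsOpen D ∧ Bornology.IsBounded D ∧ IsPointwiseConvex 5 3 D ∧ ConnectedSpace M ∧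
      IsImm 3 5 φ ∧ IsMinimal 3 5 φ ∧ IsRiemVolume 3 5 φ μ ∧ (∀ p, φ p ∈ D) ∧
      μH[(3 : ℝ)] (limitSet φ ∩ D) = 0 ∧ ¬ HasDiscreteSpectrum 3 5 φ μ := by
  obtain ⟨μ, hμ⟩ := exists_volume_phi0
  exact ⟨D0, Mset, phi0, μ, isOpen_D0, isBounded_D0, isPointwiseConvex_D0, connectedSpace_Mset,
    isImm_phi0, isMinimal_phi0, hμ, phi0_mem_D0, limitSet_phi0_null, not_discrete_phi0 hμ⟩

end Pool.Agent.helper43.MS
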