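import Pool.Agent.helper43.MS.Barrier
import Pool.Agent.helper68.MS.G1

open Bundle Manifold MeasureTheory Set Filter Topology
open scoped ContDiff ENNReal

namespace Pool.Agent.helper43.MS

/-- G2: barrier function in `ℝ^n` with a variable metric. -/
theorem euclid_barrier {m n : ℕ} (hm : 3 ≤ m) {Ω : Set (E n)} (hΩ : IsOpen Ω)
    (g : E n → Matrix (Fin n) (Fin n) ℝ) (hg : ∀ a b, ContDiffOn ℝ ∞ (fun y => g y a b) Ω)
    (hpos : ∀ y ∈ Ω, (g y).PosDef) {K : Set (E n)} (hK : IsCompact K) (hKΩ : K ⊆ Ω)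
    (h0 : μH[(m : ℝ)] K = 0) {η : ℝ} (hη : 0 < η) :
    ∃ (w : E n → ℝ) (U : Set (E n)), ContDiff ℝ ∞ w ∧ HasCompactSupport w ∧ tsupport w ⊆ Ω ∧
      (∀ y, 0 ≤ w y ∧ w y ≤ η) ∧ IsOpen U ∧ K ⊆ U ∧ U ⊆ Ω ∧
      (∀ y ∈ Ω, ∀ v : Fin m → E n, IsOrthoFamily (g y) v → ∑ k, hess g w y (v k) ≤ η) ∧
      (∀ y ∈ U, ∀ v : Fin m → E n, IsOrthoFamily (g y) v → ∑ k, hess g w y (v k) ≤ -2) :=
  euclid_barrier_of_cover hm hΩ g hg hpos hK hKΩ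
    (fun _ε hε => exists_cover_potential m hm hK h0 hε) hη

end Pool.Agent.helper43.MS
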