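import Pool.Agent.helper43.MS.Pd

open Bundle Manifold MeasureTheory Set Filter Topology
open scoped ContDiff ENNReal

namespace Pool.Agent.helper43.MS

variable {n m : ℕ}

/-- `∑_d G_{ad} (y_d - z_d)` -/
noncomputable def lin (G : Matrix (Fin n) (Fin n) ℝ) (z : E n) (a : Fin n) (y : E n) : ℝ :=
  ∑ d, G a d * (y d - z d)

theorem contDiff_lin {k : WithTop ℕ∞} (G : Matrix (Fin n) (Fin n) ℝ) (z : E n) (a : Fin n) :
    ContDiff ℝ k (lin G z a) := by
  unfold lin
  exact ContDiff.sum fun d _ => contDiff_const.mul ((contDiff_coord d).sub contDiff_const)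

theorem pd_coord_sub (i j : Fin n) (c : ℝ) (x : E n) :
    pd i (fun z => z j - c) x = if i = j then 1 else 0 := by
  rw [pd_sub (differentiableAt_coord j x) (differentiableAt_const c), pd_coord, pd_const, sub_zero]

theorem differentiableAt_coord_sub (j : Fin n) (c : ℝ) (x : E n) :
    DifferentiableAt ℝ (fun z : E n => z j - c) x :=
  (differentiableAt_coord j x).sub (differentiableAt_const _)

theorem pd_lin (G : Matrix (Fin n) (Fin n) ℝ) (z : E n) (a c : Fin n) (y : E n) :
    pd c (lin G z a) y = G a c := by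
  unfold lin
  rw [pd_sum (f := fun d (y : E n) => G a d * (y d - z d)) (fun d _ =>
    (differentiableAt_const _).mul (differentiableAt_coord_sub d (z d) y))]
  have : ∀ d ∈ Finset.univ, pd c (fun y : E n => G a d * (y d - z d)) y =
      if c = d then G a d else 0 := by
    intro d _
    rw [pd_const_mul _ (differentiableAt_coord_sub d (z d) y), pd_coord_sub]
    simp
  rw [Finset.sum_congr rfl this]
  simp

/-- the quadratic form `G(y-z,y-z)` -/
noncomputable def quad (G : Matrix (Fin n) (Fin n) ℝ) (z : E n) (y : E n) : ℝ :=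
  bil G (y - z) (y - z)

theorem quad_eq (G : Matrix (Fin n) (Fin n) ℝ) (z : E n) (y : E n) :
    quad G z y = ∑ a, (y a - z a) * lin G z a y := by
  unfold quad bil lin
  refine Finset.sum_congr rfl fun a _ => ?_
  rw [Finset.mul_sum]
  refine Finset.sum_congr rfl fun b _ => ?_
  simp; ring

theorem contDiff_quad {k : WithTop ℕ∞} (G : Matrix (Fin n) (Fin n) ℝ) (z : E n) :
    ContDiff ℝ k (quad G z) := by
  have : quad G z = fun y => ∑ a, (y a - z a) * lin G z a y := by
    ext y; exact quad_eq G z y
  rw [this]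
  exact ContDiff.sum fun d _ => ((contDiff_coord d).sub contDiff_const).mul (contDiff_lin _ _ _)

theorem pd_quad {G : Matrix (Fin n) (Fin n) ℝ} (hG : ∀ a b, G a b = G b a) (z : E n) (c : Fin n)
    (y : E n) : pd c (quad G z) y = 2 * lin G z c y := by
  have : quad G z = fun y => ∑ a, (y a - z a) * lin G z a y := by
    ext y; exact quad_eq G z y
  have hl (a : Fin n) (x : E n) : DifferentiableAt ℝ (lin G z a) x :=
    (contDiff_lin (k := 1) G z a).differentiable (by norm_num) x
  rw [this, pd_sum (f := fun a (y : E n) => (y a - z a) * lin G z a y) (fun a _ =>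
    (differentiableAt_coord_sub a (z a) y).mul (hl a y))]
  have : ∀ a ∈ Finset.univ, pd c (fun y : E n => (y a - z a) * lin G z a y) y =
      (y a - z a) * G c a + if c = a then lin G z a y else 0 := by
    intro a _
    rw [pd_mul (differentiableAt_coord_sub a (z a) y) (hl a y),
      pd_coord_sub, pd_lin, hG]
    simp
  rw [Finset.sum_congr rfl this, Finset.sum_add_distrib]
  simp only [Finset.sum_ite_eq, Finset.mem_univ, if_true]
  have : ∑ x, (y x - z x) * G c x = lin G z c y := by
    unfold lin
    exact Finset.sum_congr rfl fun a _ => mul_comm _ _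
  rw [this]; ring

theorem sum_lin_mul (G : Matrix (Fin n) (Fin n) ℝ) (z y v : E n) :
    ∑ a, lin G z a y * v a = bil G v (y - z) := by
  unfold lin bil
  refine Finset.sum_congr rfl fun a _ => ?_
  rw [Finset.sum_mul]
  refine Finset.sum_congr rfl fun b _ => ?_
  simp; ring

/-- The basic barrier function `(r² + G(y-z,y-z))^p`. -/
noncomputable def bar (G : Matrix (Fin n) (Fin n) ℝ) (z : E n) (r p : ℝ) (y : E n) : ℝ :=
  (r ^ 2 + quad G z y) ^ p

variable {G : Matrix (Fin n) (Fin n) ℝ}

theorem Q_pos (hG : G.PosDef) (z : E n) {r : ℝ} (hr : 0 < r) (y : E n) :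
    0 < r ^ 2 + quad G z y := by
  have := bil_nonneg hG (y - z)
  unfold quad; positivity

theorem contDiff_Q {k : WithTop ℕ∞} (G : Matrix (Fin n) (Fin n) ℝ) (z : E n) (r : ℝ) :
    ContDiff ℝ k (fun y => r ^ 2 + quad G z y) := contDiff_const.add (contDiff_quad G z)

theorem contDiff_bar (hG : G.PosDef) (z : E n) {r : ℝ} (hr : 0 < r) (p : ℝ) :
    ContDiff ℝ ∞ (bar G z r p) := by
  rw [contDiff_iff_contDiffAt]
  intro y
  exact ((contDiff_Q G z r).contDiffAt).rpow_const_of_ne (Q_pos hG z hr y).ne'

theorem pd_Q (hG : G.PosDef) (z : E n) (r : ℝ) (c : Fin n) (y : E n) :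
    pd c (fun y => r ^ 2 + quad G z y) y = 2 * lin G z c y := by
  rw [pd_add (differentiableAt_const _) ((contDiff_quad (k := 1) G z).differentiable
    (by norm_num) y), pd_const, zero_add]
  exact pd_quad (PosDef.symm' hG) z c y

theorem pd_bar (hG : G.PosDef) (z : E n) {r : ℝ} (hr : 0 < r) (p : ℝ) (c : Fin n) (y : E n) :
    pd c (bar G z r p) y = 2 * p * bar G z r (p - 1) y * lin G z c y := by
  have hQ := Q_pos hG z hr y
  have hd : HasDerivAt (fun t : ℝ => t ^ p) (p * (r ^ 2 + quad G z y) ^ (p - 1))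
      (r ^ 2 + quad G z y) := Real.hasDerivAt_rpow_const (Or.inl hQ.ne')
  have := pd_comp_real (i := c) (f := fun y => r ^ 2 + quad G z y) hd
    ((contDiff_Q (k := 1) G z r).differentiable (by norm_num) y)
  unfold bar
  rw [this, pd_Q hG]; ring

theorem pd_pd_bar (hG : G.PosDef) (z : E n) {r : ℝ} (hr : 0 < r) (p : ℝ) (a b : Fin n) (y : E n) :
    pd a (pd b (bar G z r p)) y = 4 * p * (p - 1) * bar G z r (p - 2) y * lin G z a y * lin G z b y
      + 2 * p * bar G z r (p - 1) y * G a b := by
  have h1 : pd b (bar G z r p) = fun y => (2 * p * bar G z r (p - 1) y) * lin G z b y := by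
    ext y; exact pd_bar hG z hr p b y
  have hb (q : ℝ) (x : E n) : DifferentiableAt ℝ (bar G z r q) x :=
    (contDiff_bar hG z hr q).differentiable (by norm_num) x
  have hl (a : Fin n) (x : E n) : DifferentiableAt ℝ (lin G z a) x :=
    (contDiff_lin (k := 1) G z a).differentiable (by norm_num) x
  rw [h1, pd_mul (f := fun y => 2 * p * bar G z r (p - 1) y) ((hb _ y).const_mul _) (hl b y),
    pd_const_mul _ (hb _ y), pd_bar hG z hr, pd_lin, PosDef.symm' hG b a,
    show p - 1 - 1 = p - 2 by ring]
  ring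

/-- second derivative of the barrier in the direction `v` -/
theorem hess_bar (hG : G.PosDef) (z : E n) {r : ℝ} (hr : 0 < r) (p : ℝ) (y v : E n) :
    ∑ a, ∑ b, pd a (pd b (bar G z r p)) y * v a * v b =
      4 * p * (p - 1) * bar G z r (p - 2) y * bil G v (y - z) ^ 2 +
        2 * p * bar G z r (p - 1) y * bil G v v := by
  have h1 : ∀ a b : Fin n, pd a (pd b (bar G z r p)) y * v a * v b =
      4 * p * (p - 1) * bar G z r (p - 2) y * ((lin G z a y * v a) * (lin G z b y * v b))
      + 2 * p * bar G z r (p - 1) y * (G a b * v a * v b) := by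
    intro a b
    rw [pd_pd_bar hG z hr]; ring
  simp only [h1, Finset.sum_add_distrib, ← Finset.mul_sum]
  rw [← Finset.sum_mul, sum_lin_mul, sq]
  rfl

end Pool.Agent.helper43.MS
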